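import Mathlib

/-! The class of groups to which the theorems apply. -/

set_option autoImplicit false

namespace Pool.Agent.Lib.MP_8f66f0_al_Dennis

/-- `G` is residually a finite `q`-group: every nontrivial element is outside some normal
subgroup whose index is a power of `q`. -/
def ResiduallyFiniteQ (q : ℕ) (G : Type*) [Group G] : Prop :=
  ∀ g : G, g ≠ 1 → ∃ N : Subgroup G, N.Normal ∧ (∃ k : ℕ, N.index = q ^ k) ∧ g ∉ N

/-- `G` has a subgroup of finite index which is residually a finite `q`-group. -/
def VirtuallyResiduallyFiniteQ (q : ℕ) (G : Type*) [Group G] : Prop :=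
  ∃ H : Subgroup G, H.FiniteIndex ∧ ResiduallyFiniteQ q H

/-- For all large primes `p` the group has unique `p`-th roots, and for all `u` and all `v ≠ 1`
the element `u` is conjugate to `v ^ p` for only finitely many primes `p`. -/
structure PowerSeparated (G : Type*) [Group G] : Prop where
  roots : ∃ N : ℕ, ∀ p : ℕ, p.Prime → N < p → ∀ x y : G, x ^ p = y ^ p → x = y
  conj : ∀ u v : G, v ≠ 1 → {p : ℕ | p.Prime ∧ IsConj u (v ^ p)}.Finite

/-- `G` embeds in a general linear group over some field (of any characteristic). -/
def IsLinearOverField.{v, u} (G : Type u) [Group G] : Prop :=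
  ∃ (F : Type v) (_ : Field F) (m : ℕ) (ρ : G →* Matrix.GeneralLinearGroup (Fin m) F),
    Function.Injective ρ

/-- `Γ` is torsion-free, and each of its finitely generated subgroups is linear over some field,
or virtually residually a finite `q`-group for all but finitely many primes `q`, or power
separated. -/
structure Admissible.{v, u} (Γ : Type u) [Group Γ] : Prop where
  torsionFree : ∀ g : Γ, ∀ n : ℕ, 0 < n → g ^ n = 1 → g = 1
  locally_good : ∀ H : Subgroup Γ, H.FG →
    IsLinearOverField.{v} H ∨
    {q : ℕ | q.Prime ∧ ¬ VirtuallyResiduallyFiniteQ q H}.Finite ∨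
    PowerSeparated H

end Pool.Agent.Lib.MP_8f66f0_al_Dennis
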