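import Mathlib

/-! The pairing of the Dennis trace with cocycles on a conjugacy class. -/

set_option autoImplicit false

namespace Pool.Agent.Lib.MP_8f66f0_al_Dennis

/-- `δ` is a `1`-cocycle, with values in `V`, of the conjugation action of `Γ` on the conjugacy
class of `c`: `δ(gh, x) = δ(g, h x h⁻¹) + δ(h, x)` for all `x` conjugate to `c`. (Up to
coboundaries these are the homomorphisms from the centralizer of `c` to `V`.) -/
def IsClassCocycle {Γ V : Type*} [Group Γ] [AddCommGroup V] (c : Γ) (δ : Γ → Γ → V) : Prop :=
  ∀ g h x : Γ, IsConj c x → δ (g * h) x = δ g (h * x * h⁻¹) + δ h x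

open Classical in
/-- The value of the cocycle `δ` on the component at the conjugacy class of `c` of the Dennis
trace of the invertible matrix `A` with inverse `B`:
the sum of `B_ij(g) A_ji(h) δ(h, gh)` over all `i, j` and all `g, h` with `gh` conjugate
to `c`. -/
noncomputable def dennisPairing {Γ V : Type*} [Group Γ] [AddCommGroup V] {n : ℕ}
    (A B : Matrix (Fin n) (Fin n) (MonoidAlgebra ℤ Γ)) (c : Γ) (δ : Γ → Γ → V) : V :=
  ∑ i, ∑ j, (B i j).coeff.sum fun g b => (A j i).coeff.sum fun h a =>
    if IsConj c (g * h) then (b * a) • δ h (g * h) else 0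

end Pool.Agent.Lib.MP_8f66f0_al_Dennis
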