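import Mathlib

/-! Definitions for the theorem on determinants of representations. -/

set_option autoImplicit false

namespace Pool.Agent.Lib.MP_8f66f0_al_Dennis

/-- The image of a matrix `A` over the integral group ring of `Γ` under a representation
`ρ : Γ → GL_k(E)`, as a matrix of size `nk` over `E`: its entry at `((i,a),(j,b))` is the sum over
`g` of the coefficient of `g` in `A i j` times the entry `(a,b)` of `ρ g`. -/
noncomputable def repMatrix {Γ E : Type*} [Group Γ] [CommRing E] {n k : ℕ}
    (ρ : Γ →* Matrix.GeneralLinearGroup (Fin k) E)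
    (A : Matrix (Fin n) (Fin n) (MonoidAlgebra ℤ Γ)) :
    Matrix (Fin n × Fin k) (Fin n × Fin k) E :=
  Matrix.of fun x y => (A x.1 y.1).coeff.sum fun g a =>
    (a : E) * (ρ g : Matrix (Fin k) (Fin k) E) x.2 y.2

end Pool.Agent.Lib.MP_8f66f0_al_Dennis
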