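import Mathlib

/-! Noncommutative binomial formulas in characteristic `p`, modulo trace functionals. -/

set_option autoImplicit false

namespace Pool.Agent.Lib.MP_8f66f0_al_Dennis

open Polynomial Finset

variable {p : ℕ} [hp : Fact p.Prime]

/-- `(-1)^(p-1-m) * choose (p-1) m = 1` in characteristic `p`. -/
lemma neg_one_pow_mul_choose (m : ℕ) (hm : m ≤ p - 1) :
    ((-1 : ZMod p) ^ (p - 1 - m)) * ((p - 1).choose m : ZMod p) = 1 := by
  have hp1 := hp.out.one_lt
  induction m with
  | zero =>
    simp only [Nat.sub_zero, Nat.choose_zero_right, Nat.cast_one, mul_one]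
    rcases hp.out.eq_two_or_odd' with h | h
    · subst h
      rw [ZMod.neg_eq_self_mod_two 1, one_pow]
    · have : Even (p - 1) := by
        obtain ⟨k, hk⟩ := h
        exact ⟨k, by omega⟩
      exact this.neg_one_pow
  | succ m ih =>
    have ih' := ih (by omega)
    have h1 : (p - 1).choose m + (p - 1).choose (m + 1) = p.choose (m + 1) := by
      have : p = (p - 1) + 1 := by omega
      conv_rhs => rw [this]
      exact (Nat.choose_succ_succ _ _).symm
    have h2 : (p.choose (m + 1) : ZMod p) = 0 := by
      rw [ZMod.natCast_eq_zero_iff]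
      exact hp.out.dvd_choose_self (by omega) (by omega)
    have h3 : ((p - 1).choose (m + 1) : ZMod p) = - ((p - 1).choose m : ZMod p) := by
      have := congrArg (Nat.cast : ℕ → ZMod p) h1
      push_cast at this
      rw [h2] at this
      exact eq_neg_of_add_eq_zero_right this
    rw [h3]
    have h4 : p - 1 - m = (p - 1 - (m + 1)) + 1 := by omega
    rw [h4, pow_succ] at ih'
    linear_combination ih'

/-- For commuting `x, y` in a ring of characteristic `p`:
`(x - y)^(p-1) = ∑ x^j y^(p-1-j)`. -/
lemma sub_pow_pred {E : Type*} [Ring E] [Algebra (ZMod p) E] {x y : E} (h : Commute x y) :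
    (x - y) ^ (p - 1) = ∑ j ∈ range p, x ^ j * y ^ (p - 1 - j) := by
  have hp1 := hp.out.one_lt
  have hn : Commute x (-y) := h.neg_right
  rw [sub_eq_add_neg, hn.add_pow]
  have : p - 1 + 1 = p := by omega
  rw [this]
  refine Finset.sum_congr rfl fun j hj => ?_
  have hj' : j ≤ p - 1 := by
    have := Finset.mem_range.mp hj; omega
  have e1 : (-y) ^ (p - 1 - j) = ((-1 : ZMod p) ^ (p - 1 - j)) • y ^ (p - 1 - j) := by
    rw [neg_pow y]
    rw [Algebra.smul_def, map_pow, map_neg, map_one]
  have e2 : (((p - 1).choose j : ℕ) : E) = algebraMap (ZMod p) E ((p - 1).choose j : ZMod p) := by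
    rw [map_natCast]
  rw [e1, e2, mul_smul_comm, smul_mul_assoc, ← Algebra.commutes, ← Algebra.smul_def, smul_smul,
    neg_one_pow_mul_choose j hj', one_smul]

/-- iterated commutator as a linear map -/
noncomputable def adL {E : Type*} [Ring E] (a : E) : E →ₗ[ℤ] E :=
  LinearMap.mulLeft ℤ a - LinearMap.mulRight ℤ a

lemma adL_apply {E : Type*} [Ring E] (a b : E) : adL a b = a * b - b * a := rfl

/-- `∑ a^j b a^(p-1-j) = ad(a)^(p-1) b` in characteristic `p`. -/
lemma sum_eq_adL_pow {E : Type*} [Ring E] [Algebra (ZMod p) E] (a b : E) :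
    ∑ j ∈ range p, a ^ j * b * a ^ (p - 1 - j) = ((adL a) ^ (p - 1)) b := by
  have hcomm : Commute (LinearMap.mulLeft (ZMod p) a) (LinearMap.mulRight (ZMod p) a) :=
    LinearMap.commute_mulLeft_right _ _
  have key := sub_pow_pred (p := p) hcomm
  have h2 := LinearMap.congr_fun key b
  have e : ∀ n : ℕ, ((LinearMap.mulLeft (ZMod p) a - LinearMap.mulRight (ZMod p) a) ^ n) b
      = ((adL a) ^ n) b := by
    intro n
    induction n with
    | zero => rfl
    | succ n ih =>
      rw [pow_succ', pow_succ', Module.End.mul_apply, Module.End.mul_apply, ih]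
      rfl
  rw [← e, h2, LinearMap.sum_apply]
  refine Finset.sum_congr rfl fun j _ => ?_
  rw [Module.End.mul_apply, LinearMap.pow_mulLeft, LinearMap.pow_mulRight]
  simp [mul_assoc]

end Pool.Agent.Lib.MP_8f66f0_al_Dennis
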