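import Mathlib
import Pool.Agent.Lib.MP_8f66f0_al_Dennis.CharP

set_option autoImplicit false

namespace Pool.Agent.Lib.MP_8f66f0_al_Dennis

open Polynomial Finset

variable {p : ℕ} [hp : Fact p.Prime]

section general

variable {E : Type*} [Ring E]

/-- The linear polynomial `u X + v`. -/
noncomputable def lin (u v : E) : E[X] := C u * X + C v

lemma derivative_lin (u v : E) : derivative (lin u v) = C u := by
  simp [lin]

lemma natDegree_lin_le (u v : E) : (lin u v).natDegree ≤ 1 := by
  unfold lin
  refine natDegree_add_le_of_degree_le ?_ ?_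
  · exact (natDegree_C_mul_le _ _).trans natDegree_X_le
  · simp

lemma coeff_one_lin (u v : E) : (lin u v).coeff 1 = u := by
  simp [lin, coeff_C]

lemma coeff_zero_lin (u v : E) : (lin u v).coeff 0 = v := by
  simp [lin]

lemma coeff_lin_pow_top (u v : E) (n : ℕ) : ((lin u v) ^ n).coeff n = u ^ n := by
  have := coeff_pow_of_natDegree_le (m := n) (natDegree_lin_le u v)
  rw [mul_one, coeff_one_lin] at this
  exact this

lemma coeff_lin_pow_zero (u v : E) (n : ℕ) : ((lin u v) ^ n).coeff 0 = v ^ n := by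
  have := map_pow (constantCoeff (R := E)) (lin u v) n
  simpa [constantCoeff, coeff_zero_lin] using this

lemma natDegree_lin_pow_le (u v : E) (n : ℕ) : ((lin u v) ^ n).natDegree ≤ n := by
  have := natDegree_pow_le_of_le n (natDegree_lin_le u v)
  simpa using this

/-- evaluation at `1` as a ring homomorphism -/
noncomputable def evOne : E[X] →+* E :=
  eval₂RingHom' (RingHom.id E) 1 (fun _ => Commute.one_right _)

lemma evOne_lin (u v : E) : evOne (lin u v) = u + v := by
  simp [evOne, lin, eval₂RingHom']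

lemma evOne_eq_sum (q : E[X]) (n : ℕ) (hn : q.natDegree ≤ n) :
    evOne q = ∑ i ∈ range (n + 1), q.coeff i := by
  have : evOne q = eval₂ (RingHom.id E) 1 q := rfl
  rw [this, eval₂_eq_sum_range' (RingHom.id E) (Nat.lt_succ_of_le hn)]
  simp

lemma add_pow_eq_sum (u v : E) (n : ℕ) :
    (u + v) ^ n = ∑ i ∈ range (n + 1), ((lin u v) ^ n).coeff i := by
  rw [← evOne_lin u v, ← map_pow, evOne_eq_sum _ n (natDegree_lin_pow_le u v n)]

lemma derivative_lin_pow (u v : E) (n : ℕ) :
    derivative ((lin u v) ^ n) =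
      ∑ j ∈ range n, (lin u v) ^ j * C u * (lin u v) ^ (n - 1 - j) := by
  induction n with
  | zero => simp
  | succ n ih =>
    rw [pow_succ, derivative_mul, ih, derivative_lin, Finset.sum_mul, Finset.sum_range_succ]
    congr 1
    · refine Finset.sum_congr rfl fun j hj => ?_
      have hj' := Finset.mem_range.mp hj
      have : n + 1 - 1 - j = (n - 1 - j) + 1 := by omega
      rw [this, pow_succ, mul_assoc ((lin u v) ^ j * C u)]
    · simp

end general

/-- A trace functional on a ring, with values in `ZMod p`. -/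
def IsTr {E : Type*} [Ring E] (φ : E →+ ZMod p) : Prop := ∀ x y, φ (x * y) = φ (y * x)

lemma map_eq_zero_of_nsmul {i : ℕ} (h0 : 0 < i) (hi : i < p) {z : ZMod p} (h : (i : ZMod p) * z = 0) :
    z = 0 := by
  rcases mul_eq_zero.mp h with h1 | h1
  · rw [ZMod.natCast_eq_zero_iff] at h1
    exact absurd (Nat.le_of_dvd h0 h1) (by omega)
  · exact h1

/-- Additivity of the Frobenius modulo a trace functional. -/
lemma IsTr.add_pow {E : Type*} [Ring E] [Algebra (ZMod p) E] {φ : E →+ ZMod p} (hφ : IsTr φ)
    (u v : E) : φ ((u + v) ^ p) = φ (u ^ p) + φ (v ^ p) := by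
  have hp1 := hp.out.one_lt
  set a := lin u v with ha
  have htr : ∀ (q r : E[X]) (i : ℕ), φ ((q * r).coeff i) = φ ((r * q).coeff i) := by
    intro q r i
    rw [coeff_mul, coeff_mul, map_sum, map_sum, ← Finset.Nat.sum_antidiagonal_swap]
    refine Finset.sum_congr rfl fun x _ => ?_
    exact hφ _ _
  have hmid : ∀ i, 0 < i → i < p → φ ((a ^ p).coeff i) = 0 := by
    intro i h0 hi
    have h1 : (derivative (a ^ p)).coeff (i - 1) = (a ^ p).coeff i * (i : E) := by
      rw [coeff_derivative]
      have : i - 1 + 1 = i := by omega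
      rw [this]
      congr 1
      have : ((i - 1 : ℕ) : E) + 1 = ((i - 1 + 1 : ℕ) : E) := by push_cast; rfl
      rw [this]
      congr 1
    have h2 : φ ((derivative (a ^ p)).coeff (i - 1)) = 0 := by
      rw [derivative_lin_pow, finsetSum_coeff, map_sum]
      have : ∀ j ∈ range p, φ (((a ^ j * C u * a ^ (p - 1 - j)).coeff (i - 1))) =
          φ ((C u * a ^ (p - 1)).coeff (i - 1)) := by
        intro j hj
        have hj' := Finset.mem_range.mp hj
        rw [mul_assoc, htr, mul_assoc, ← pow_add]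
        congr 3
        congr 1
        omega
      rw [Finset.sum_congr rfl this, Finset.sum_const, card_range, nsmul_eq_mul]
      simp
    rw [h1] at h2
    have h3 : φ ((a ^ p).coeff i * (i : E)) = (i : ZMod p) * φ ((a ^ p).coeff i) := by
      rw [← nsmul_eq_mul', map_nsmul, nsmul_eq_mul]
    rw [h3] at h2
    exact map_eq_zero_of_nsmul h0 hi h2
  rw [add_pow_eq_sum, map_sum, Finset.sum_range_succ, coeff_lin_pow_top]
  rw [Finset.sum_eq_single 0, coeff_lin_pow_zero, add_comm]
  · intro i hi h0
    have := Finset.mem_range.mp hi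
    exact hmid _ (by omega) (by omega)
  · intro h
    exact absurd (Finset.mem_range.mpr (by omega)) h

lemma IsTr.sum_pow {E ι : Type*} [Ring E] [Algebra (ZMod p) E] {φ : E →+ ZMod p} (hφ : IsTr φ)
    (s : Finset ι) (f : ι → E) : φ ((∑ i ∈ s, f i) ^ p) = ∑ i ∈ s, φ (f i ^ p) := by
  classical
  induction s using Finset.induction_on with
  | empty =>
    simp [zero_pow hp.out.ne_zero]
  | insert a s ha ih =>
    rw [Finset.sum_insert ha, Finset.sum_insert ha, hφ.add_pow, ih]

/-- The sequence `Y_n = (∂ + W)^n 1`. -/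
noncomputable def Yseq {M : Type*} [Ring M] [Algebra (ZMod p) M] (D : M →ₗ[ZMod p] M) (W : M) :
    ℕ → M
  | 0 => 1
  | n + 1 => D (Yseq D W n) + W * Yseq D W n

lemma Yseq_eq {M : Type*} [Ring M] [Algebra (ZMod p) M] (D : M →ₗ[ZMod p] M) (W : M) (n : ℕ) :
    Yseq D W n = ((LinearMap.mulLeft (ZMod p) W + D) ^ n) 1 := by
  induction n with
  | zero => simp [Yseq]
  | succ n ih =>
    rw [pow_succ', Module.End.mul_apply, ← ih, Yseq, LinearMap.add_apply,
      LinearMap.mulLeft_apply, add_comm]

/-- Jacobson's formula modulo a trace functional killing `D`. -/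
lemma IsTr.Yseq_p {M : Type*} [Ring M] [Algebra (ZMod p) M] {φ : M →+ ZMod p} (hφ : IsTr φ)
    (D : M →ₗ[ZMod p] M) (hD : ∀ x y, D (x * y) = D x * y + x * D y) (hφD : ∀ x, φ (D x) = 0)
    (W : M) : φ (Yseq D W p) = φ (W ^ p) := by
  have hp1 := hp.out.one_lt
  set u : Module.End (ZMod p) M := LinearMap.mulLeft (ZMod p) W with hu
  set v : Module.End (ZMod p) M := D with hv
  set a := lin u v with ha
  -- coefficients of iterated commutators are left multiplications
  have hcomm : ∀ (q : (Module.End (ZMod p) M)[X]),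
      (∀ i, ∃ Z : M, q.coeff i = LinearMap.mulLeft (ZMod p) Z) →
      ∀ i, ∃ Z : M, (adL a q).coeff i = LinearMap.mulLeft (ZMod p) Z ∧ φ Z = 0 := by
    intro q hq i
    have hmulv : ∀ Z : M, v * LinearMap.mulLeft (ZMod p) Z - LinearMap.mulLeft (ZMod p) Z * v
        = LinearMap.mulLeft (ZMod p) (D Z) := by
      intro Z
      ext m
      have h := hD Z m
      simp only [LinearMap.sub_apply, Module.End.mul_apply, LinearMap.mulLeft_apply, hv] at h ⊢
      rw [h, add_sub_cancel_right]
    have hmulu : ∀ Z : M, u * LinearMap.mulLeft (ZMod p) Z - LinearMap.mulLeft (ZMod p) Z * u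
        = LinearMap.mulLeft (ZMod p) (W * Z - Z * W) := by
      intro Z
      ext m
      simp only [LinearMap.sub_apply, Module.End.mul_apply, LinearMap.mulLeft_apply, hu]
      noncomm_ring
    have e : adL a q = (C u * (X * q) - (X * q) * C u) + (C v * q - q * C v) := by
      have e1 : q * (C u * X) = X * q * C u := by
        rw [← mul_assoc, ← X_mul, mul_assoc]
      have e2 : C u * X * q = C u * (X * q) := mul_assoc _ _ _
      rw [adL_apply, ha, lin, add_mul, mul_add, e1, e2]
      abel
    obtain ⟨Z1, hZ1⟩ := hq i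
    have hv' : (C v * q - q * C v).coeff i = LinearMap.mulLeft (ZMod p) (D Z1) := by
      rw [coeff_sub, coeff_C_mul, coeff_mul_C, hZ1, hmulv]
    rcases i with _ | i
    · refine ⟨D Z1, ?_, hφD _⟩
      rw [e, coeff_add, hv', coeff_sub, coeff_C_mul, coeff_mul_C]
      simp
    · obtain ⟨Z0, hZ0⟩ := hq i
      refine ⟨(W * Z0 - Z0 * W) + D Z1, ?_, ?_⟩
      · rw [e, coeff_add, hv', coeff_sub, coeff_C_mul, coeff_mul_C, coeff_X_mul, hZ0, hmulu]
        ext m
        simp [add_mul]
      · rw [map_add, hφD, map_sub, hφ, sub_self, add_zero]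
  have hiter : ∀ m i, 0 < m → ∃ Z : M, (((adL a) ^ m) (C u)).coeff i =
      LinearMap.mulLeft (ZMod p) Z ∧ φ Z = 0 := by
    intro m i hm
    obtain ⟨m, rfl⟩ : ∃ k, m = k + 1 := ⟨m - 1, by omega⟩
    induction m generalizing i with
    | zero =>
      rw [zero_add, pow_one]
      refine hcomm _ ?_ i
      intro i
      rcases i with _ | i
      · exact ⟨W, by simp [hu]⟩
      · exact ⟨0, by simp [coeff_C]⟩
    | succ m ih =>
      rw [pow_succ', Module.End.mul_apply]
      refine hcomm _ ?_ i
      intro i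
      obtain ⟨Z, hZ, _⟩ := ih i (by omega)
      exact ⟨Z, hZ⟩
  have hmid : ∀ i, 0 < i → i < p → φ (((a ^ p).coeff i) 1) = 0 := by
    intro i h0 hi
    have h1 : (derivative (a ^ p)).coeff (i - 1) = (i : ZMod p) • (a ^ p).coeff i := by
      rw [coeff_derivative]
      have : i - 1 + 1 = i := by omega
      rw [this]
      have h' : ((i - 1 : ℕ) : Module.End (ZMod p) M) + 1 = ((i : ℕ) : Module.End (ZMod p) M) := by
        have : ((i - 1 : ℕ) : Module.End (ZMod p) M) + 1
          = ((i - 1 + 1 : ℕ) : Module.End (ZMod p) M) := by push_cast; rfl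
        rw [this]
        congr 1
      rw [h', ← nsmul_eq_mul']
      exact (Nat.cast_smul_eq_nsmul _ _ _).symm
    rw [derivative_lin_pow, sum_eq_adL_pow] at h1
    obtain ⟨Z, hZ, hφZ⟩ := hiter (p - 1) (i - 1) (by omega)
    rw [hZ] at h1
    have h2 : Z = (i : ZMod p) • ((a ^ p).coeff i) 1 := by
      have := LinearMap.congr_fun h1 1
      simpa using this
    have h3 : φ ((i : ZMod p) • ((a ^ p).coeff i) 1) = (i : ZMod p) * φ (((a ^ p).coeff i) 1) := by
      rw [Nat.cast_smul_eq_nsmul, map_nsmul, nsmul_eq_mul]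
    rw [h2, h3] at hφZ
    exact map_eq_zero_of_nsmul h0 hi hφZ
  have hpowu : (u ^ p) 1 = W ^ p := by
    rw [hu, LinearMap.pow_mulLeft]; simp
  have hpowv : φ ((v ^ p) 1) = 0 := by
    rw [← mul_pow_sub_one hp.out.ne_zero v, Module.End.mul_apply]
    exact hφD _
  rw [Yseq_eq, add_pow_eq_sum, LinearMap.sum_apply, map_sum, Finset.sum_range_succ,
    coeff_lin_pow_top, hpowu]
  rw [Finset.sum_eq_single 0, coeff_lin_pow_zero, hpowv, zero_add]
  · intro i hi h0
    have := Finset.mem_range.mp hi
    exact hmid _ (by omega) (by omega)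
  · intro h
    exact absurd (Finset.mem_range.mpr (by omega)) h

end Pool.Agent.Lib.MP_8f66f0_al_Dennis
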