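import Mathlib
import Pool.Agent.Lib.MP_8f66f0_al_Dennis.Jacobson

/-! The Frobenius congruence for the Dennis trace. -/

set_option autoImplicit false
set_option linter.unusedSectionVars false

namespace Pool.Agent.Lib.MP_8f66f0_al_Dennis

open Finset

section matrices

variable {p : ℕ} [hp : Fact p.Prime]
variable {E : Type*} [Ring E] [Algebra (ZMod p) E] {ι : Type*} [Fintype ι] [DecidableEq ι]

/-- The trace functional on matrices. -/
noncomputable def mtr (φ : E →+ ZMod p) : Matrix ι ι E →+ ZMod p :=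
  φ.comp (Matrix.traceAddMonoidHom ι E)

lemma mtr_apply (φ : E →+ ZMod p) (X : Matrix ι ι E) : mtr φ X = ∑ i, φ (X i i) := by
  rw [mtr, AddMonoidHom.comp_apply, Matrix.traceAddMonoidHom_apply, Matrix.trace, map_sum]
  rfl

lemma mtr_isTr {φ : E →+ ZMod p} (hφ : IsTr φ) : IsTr (mtr (ι := ι) φ) := by
  intro X Y
  rw [mtr_apply, mtr_apply]
  have h1 : ∀ i, φ ((X * Y) i i) = ∑ j, φ (X i j * Y j i) := by
    intro i
    rw [Matrix.mul_apply, map_sum]
  have h2 : ∀ i, φ ((Y * X) i i) = ∑ j, φ (Y i j * X j i) := by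
    intro i
    rw [Matrix.mul_apply, map_sum]
  rw [Finset.sum_congr rfl (fun i _ => h1 i), Finset.sum_congr rfl (fun i _ => h2 i),
    Finset.sum_comm]
  refine Finset.sum_congr rfl fun i _ => Finset.sum_congr rfl fun j _ => ?_
  exact hφ _ _

lemma single_matrix_pow_self (i : ι) (a : E) (m : ℕ) (hm : 0 < m) :
    (Matrix.single i i a) ^ m = Matrix.single i i (a ^ m) := by
  obtain ⟨m, rfl⟩ : ∃ k, m = k + 1 := ⟨m - 1, by omega⟩
  induction m with
  | zero => simp
  | succ m ih => rw [pow_succ, ih (by omega), Matrix.single_mul_single_same, ← pow_succ]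

lemma single_matrix_pow_ne {i j : ι} (h : j ≠ i) (a : E) (m : ℕ) (hm : 2 ≤ m) :
    (Matrix.single i j a) ^ m = 0 := by
  obtain ⟨m, rfl⟩ : ∃ k, m = k + 2 := ⟨m - 2, by omega⟩
  rw [pow_succ, pow_succ, mul_assoc, Matrix.single_mul_single_of_ne _ _ _ _ h, mul_zero]

lemma mtr_pow {φ : E →+ ZMod p} (hφ : IsTr φ) (X : Matrix ι ι E) :
    mtr φ (X ^ p) = ∑ i, φ ((X i i) ^ p) := by
  have hp2 := hp.out.two_le
  have h1 : X = ∑ x : ι × ι, Matrix.single x.1 x.2 (X x.1 x.2) := by
    rw [Fintype.sum_prod_type]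
    exact Matrix.matrix_eq_sum_single X
  conv_lhs => rw [h1]
  rw [(mtr_isTr hφ).sum_pow, Fintype.sum_prod_type]
  refine Finset.sum_congr rfl fun i _ => ?_
  rw [Finset.sum_eq_single i]
  · dsimp only
    rw [single_matrix_pow_self i _ p (by omega), mtr_apply, Finset.sum_eq_single i]
    · rw [Matrix.single_apply_same]
    · intro j _ hj
      rw [Matrix.single_apply_of_row_ne hj.symm, map_zero]
    · intro h; exact absurd (Finset.mem_univ _) h
  · intro j _ hj
    dsimp only
    rw [single_matrix_pow_ne hj _ p hp2, map_zero]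
  · intro h; exact absurd (Finset.mem_univ _) h

/-- Entrywise application of a linear map. -/
noncomputable def mder (d : E →ₗ[ZMod p] E) : Matrix ι ι E →ₗ[ZMod p] Matrix ι ι E :=
  d.mapMatrix

lemma mder_apply (d : E →ₗ[ZMod p] E) (X : Matrix ι ι E) (i j : ι) :
    mder d X i j = d (X i j) := rfl

lemma mder_mul {d : E →ₗ[ZMod p] E} (hd : ∀ x y, d (x * y) = d x * y + x * d y)
    (X Y : Matrix ι ι E) : mder d (X * Y) = mder d X * Y + X * mder d Y := by
  ext i j
  rw [mder_apply, Matrix.mul_apply, map_sum, Matrix.add_apply, Matrix.mul_apply, Matrix.mul_apply,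
    ← Finset.sum_add_distrib]
  refine Finset.sum_congr rfl fun k _ => ?_
  rw [hd]; rfl

lemma mder_iterate (d : E →ₗ[ZMod p] E) (X : Matrix ι ι E) (m : ℕ) (i j : ι) :
    ((mder d)^[m] X) i j = d^[m] (X i j) := by
  induction m with
  | zero => rfl
  | succ m ih => rw [Function.iterate_succ_apply', Function.iterate_succ_apply', mder_apply, ih]

lemma Yseq_unit {d : E →ₗ[ZMod p] E} (hd : ∀ x y, d (x * y) = d x * y + x * d y)
    {A B : Matrix ι ι E} (hAB : A * B = 1) (hBA : B * A = 1) (m : ℕ) :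
    Yseq (mder d) (B * mder d A) m = B * (mder d)^[m] A := by
  have hd1 : d 1 = 0 := by
    have := hd 1 1
    rw [mul_one, mul_one, one_mul] at this
    exact left_eq_add.mp this
  have h1 : mder d (1 : Matrix ι ι E) = 0 := by
    ext i j
    rw [mder_apply, Matrix.one_apply]
    split_ifs
    · rw [hd1]; rfl
    · rw [map_zero]; rfl
  have h2 : mder d B = - (B * mder d A * B) := by
    have h3 : mder d (A * B) = 0 := by rw [hAB, h1]
    rw [mder_mul hd] at h3
    have h4 : B * (mder d A * B + A * mder d B) = 0 := by rw [h3, mul_zero]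
    rw [mul_add, ← mul_assoc, ← mul_assoc, hBA, one_mul] at h4
    exact eq_neg_of_add_eq_zero_right h4
  induction m with
  | zero => rw [Yseq, Function.iterate_zero, id, hBA]
  | succ m ih =>
    rw [Yseq, ih, mder_mul hd, h2, Function.iterate_succ_apply']
    noncomm_ring

/-- The key identity for a derivation of a ring of characteristic `p`. -/
lemma mtr_key {φ : E →+ ZMod p} (hφ : IsTr φ) {d : E →ₗ[ZMod p] E}
    (hd : ∀ x y, d (x * y) = d x * y + x * d y) (hφd : ∀ x, φ (d x) = 0)
    (hdp : ∀ x, d^[p] x = d x)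
    {A B : Matrix ι ι E} (hAB : A * B = 1) (hBA : B * A = 1) :
    ∑ i, φ ((B * mder d A) i i) = ∑ i, φ (((B * mder d A) i i) ^ p) := by
  have h1 := (mtr_isTr (ι := ι) hφ).Yseq_p (mder d) (mder_mul hd) (by
    intro X
    rw [mtr_apply]
    exact Finset.sum_eq_zero fun i _ => by rw [mder_apply, hφd]) (B * mder d A)
  rw [Yseq_unit hd hAB hBA, mtr_pow hφ, mtr_apply] at h1
  have h2 : (mder d)^[p] A = mder d A := by
    ext i j
    rw [mder_iterate, hdp, mder_apply]
  rw [h2] at h1
  exact h1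

end matrices

end Pool.Agent.Lib.MP_8f66f0_al_Dennis
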