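import Mathlib
import Pool.Agent.Lib.MP_8f66f0_al_Dennis.Jacobson

/-! The crossed product of the conjugation action of a group on its `ZMod p`-valued functions. -/

set_option autoImplicit false

namespace Pool.Agent.Lib.MP_8f66f0_al_Dennis

open Finset

/-- Functions on a group with values in `ZMod p`; the group acts by conjugation. -/
def Fn (Γ : Type*) (p : ℕ) := Γ → ZMod p

namespace Fn

variable {Γ : Type*} {p : ℕ}

instance : CommRing (Fn Γ p) := inferInstanceAs (CommRing (Γ → ZMod p))
instance : Algebra (ZMod p) (Fn Γ p) := inferInstanceAs (Algebra (ZMod p) (Γ → ZMod p))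

lemma zero_apply (x : Γ) : (0 : Fn Γ p) x = 0 := rfl
lemma one_apply (x : Γ) : (1 : Fn Γ p) x = 1 := rfl
lemma add_apply (f g : Fn Γ p) (x : Γ) : (f + g) x = f x + g x := rfl
lemma mul_apply (f g : Fn Γ p) (x : Γ) : (f * g) x = f x * g x := rfl
lemma pow_apply (f : Fn Γ p) (n : ℕ) (x : Γ) : (f ^ n) x = f x ^ n := rfl

variable [Group Γ]

instance : SMul Γ (Fn Γ p) := ⟨fun g f x => f (g⁻¹ * x * g)⟩

lemma gsmul_apply (g : Γ) (f : Fn Γ p) (x : Γ) : (g • f) x = f (g⁻¹ * x * g) := rfl

instance : MulSemiringAction Γ (Fn Γ p) where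
  one_smul f := by
    funext x
    rw [gsmul_apply]
    simp
  mul_smul g h f := by
    funext x
    rw [gsmul_apply, gsmul_apply, gsmul_apply]
    congr 1
    group
  smul_zero _ := rfl
  smul_add _ _ _ := rfl
  smul_one _ := rfl
  smul_mul _ _ _ := rfl

instance : SMulCommClass Γ (ZMod p) (Fn Γ p) where
  smul_comm _ _ _ := rfl

end Fn

/-- The crossed product. -/
abbrev Cr (Γ : Type*) (p : ℕ) := SkewMonoidAlgebra (Fn Γ p) Γ

section ev

variable {Γ : Type*} [Group Γ] {p : ℕ}

open SkewMonoidAlgebra

open Classical in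
/-- The functional `single g f ↦ f (e g)` if `T (e g)`, and `0` otherwise. -/
noncomputable def ev (T : Γ → Prop) (e : Γ → Γ) : Cr Γ p →+ ZMod p :=
  (Finsupp.liftAddHom (fun g : Γ =>
    ({ toFun := fun f : Fn Γ p => if T (e g) then f (e g) else 0
       map_zero' := by simp [Fn.zero_apply]
       map_add' := by
        intro f f'
        by_cases h : T (e g) <;> simp [h, Fn.add_apply] } : Fn Γ p →+ ZMod p))).comp
    (coeffAddEquiv (k := Fn Γ p) (G := Γ)).toAddMonoidHom

open Classical in
lemma ev_single (T : Γ → Prop) (e : Γ → Γ) (g : Γ) (f : Fn Γ p) :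
    ev T e (single g f) = if T (e g) then f (e g) else 0 := by
  unfold ev
  rw [AddMonoidHom.comp_apply]
  have : (coeffAddEquiv (k := Fn Γ p) (G := Γ)).toAddMonoidHom (single g f)
      = Finsupp.single g f := rfl
  rw [this, Finsupp.liftAddHom_apply_single]
  rfl

lemma ev_mul_comm {T : Γ → Prop} (hT : ∀ g x, T x → T (g * x * g⁻¹)) (x y : Cr Γ p) :
    ev T id (x * y) = ev T id (y * x) := by
  have hT' : ∀ g h, T (g * h) ↔ T (h * g) := by
    intro g h
    constructor
    · intro H
      have := hT h _ H
      have e : h * (g * h) * h⁻¹ = h * g := by group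
      rwa [e] at this
    · intro H
      have := hT g _ H
      have e : g * (h * g) * g⁻¹ = g * h := by group
      rwa [e] at this
  induction x using SkewMonoidAlgebra.induction_on' with
  | single g f =>
    induction y using SkewMonoidAlgebra.induction_on' with
    | single g' f' =>
      rw [single_mul_single, single_mul_single, ev_single, ev_single]
      simp only [id]
      by_cases h : T (g * g')
      · rw [if_pos h, if_pos ((hT' g g').mp h), Fn.mul_apply, Fn.mul_apply, Fn.gsmul_apply,
          Fn.gsmul_apply]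
        have e1 : g⁻¹ * (g * g') * g = g' * g := by group
        have e2 : g'⁻¹ * (g' * g) * g' = g * g' := by group
        rw [e1, e2, mul_comm]
      · rw [if_neg h, if_neg (fun h' => h ((hT' g g').mpr h'))]
    | add y y' h h' => rw [mul_add, add_mul, map_add, map_add, h, h']
  | add x x' h h' => rw [mul_add, add_mul, map_add, map_add, h, h']

lemma ev_isTr [Fact p.Prime] {T : Γ → Prop} (hT : ∀ g x, T x → T (g * x * g⁻¹)) :
    IsTr (ev (p := p) T id) := ev_mul_comm hT

lemma single_pow (g : Γ) (f : Fn Γ p) (m : ℕ) :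
    ∃ F : Fn Γ p, (single g f : Cr Γ p) ^ m = single (g ^ m) F ∧
      ∀ x, Commute g x → F x = f x ^ m := by
  induction m with
  | zero => exact ⟨1, by rw [pow_zero, pow_zero, single_one_one], fun x _ => by
      rw [Fn.one_apply, pow_zero]⟩
  | succ m ih =>
    obtain ⟨F, hF, hF'⟩ := ih
    refine ⟨F * g ^ m • f, ?_, ?_⟩
    · rw [pow_succ, hF, single_mul_single, pow_succ]
    · intro x hx
      rw [Fn.mul_apply, hF' x hx, Fn.gsmul_apply, pow_succ]
      have : (g ^ m)⁻¹ * x * g ^ m = x := by
        have h := (hx.pow_left m).eq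
        rw [mul_assoc, ← h]; group
      rw [this]

/-- The trace of a `p`-th power. -/
lemma ev_pow [hp : Fact p.Prime] {T : Γ → Prop} (hT : ∀ g x, T x → T (g * x * g⁻¹)) (x : Cr Γ p) :
    ev T id (x ^ p) = ev T (fun g => g ^ p) x := by
  have h1 : x = ∑ g ∈ x.support, single g (x.coeff g) := (sum_single x).symm
  conv_lhs => rw [h1]
  conv_rhs => rw [h1]
  rw [(ev_isTr hT).sum_pow, _root_.map_sum]
  refine Finset.sum_congr rfl fun g _ => ?_
  obtain ⟨F, hF, hF'⟩ := single_pow g (x.coeff g) p
  rw [hF, ev_single, ev_single]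
  simp only [id]
  by_cases h : T (g ^ p)
  · rw [if_pos h, if_pos h, hF' _ ((Commute.refl g).pow_right p), ZMod.pow_card]
  · rw [if_neg h, if_neg h]

end ev

section der

variable {Γ : Type*} [Group Γ] {p : ℕ}

open SkewMonoidAlgebra

/-- The function `x ↦ δ(g, g⁻¹ x g)`. -/
def dfun (δ : Γ → Γ → ZMod p) (g : Γ) : Fn Γ p := fun x => δ g (g⁻¹ * x * g)

/-- The derivation `single g f ↦ single g (dfun g * f)` as an additive map. -/
noncomputable def derAdd (δ : Γ → Γ → ZMod p) : Cr Γ p →+ Cr Γ p :=
  (Finsupp.liftAddHom (fun g : Γ =>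
    (singleAddHom (k := Fn Γ p) g).comp (AddMonoidHom.mulLeft (dfun δ g)))).comp
    (coeffAddEquiv (k := Fn Γ p) (G := Γ)).toAddMonoidHom

lemma derAdd_single (δ : Γ → Γ → ZMod p) (g : Γ) (f : Fn Γ p) :
    derAdd δ (single g f) = single g (dfun δ g * f) := by
  unfold derAdd
  rw [AddMonoidHom.comp_apply]
  have : (coeffAddEquiv (k := Fn Γ p) (G := Γ)).toAddMonoidHom (single g f)
      = Finsupp.single g f := rfl
  rw [this, Finsupp.liftAddHom_apply_single]
  rfl

/-- The derivation as a `ZMod p`-linear map. -/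
noncomputable def der (δ : Γ → Γ → ZMod p) : Cr Γ p →ₗ[ZMod p] Cr Γ p :=
  (derAdd δ).toZModLinearMap p

lemma der_single (δ : Γ → Γ → ZMod p) (g : Γ) (f : Fn Γ p) :
    der δ (single g f) = single g (dfun δ g * f) := derAdd_single δ g f

lemma der_mul {δ : Γ → Γ → ZMod p} (hδ : ∀ g h x, δ (g * h) x = δ g (h * x * h⁻¹) + δ h x)
    (x y : Cr Γ p) : der δ (x * y) = der δ x * y + x * der δ y := by
  induction x using SkewMonoidAlgebra.induction_on' with
  | single g f =>
    induction y using SkewMonoidAlgebra.induction_on' with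
    | single g' f' =>
      rw [single_mul_single, der_single, der_single, der_single, single_mul_single,
        single_mul_single, ← single_add]
      congr 1
      funext x
      simp only [Fn.mul_apply, Fn.add_apply, Fn.gsmul_apply, dfun]
      have e1 : (g * g')⁻¹ * x * (g * g') = g'⁻¹ * (g⁻¹ * x * g) * g' := by group
      rw [e1, hδ]
      have e2 : g' * (g'⁻¹ * (g⁻¹ * x * g) * g') * g'⁻¹ = g⁻¹ * x * g := by group
      rw [e2]
      ring
    | add y y' h h' =>
      rw [mul_add, map_add, h, h', map_add, mul_add, mul_add]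
      abel
  | add x x' h h' =>
    rw [add_mul, map_add, h, h', map_add, add_mul, add_mul]
    abel

lemma der_iterate [hp : Fact p.Prime] (δ : Γ → Γ → ZMod p) (x : Cr Γ p) :
    (der δ)^[p] x = der δ x := by
  have key : ∀ m, (der δ)^[m] x = ∑ g ∈ x.support, single g ((dfun δ g) ^ m * x.coeff g) := by
    intro m
    induction m with
    | zero =>
      rw [Function.iterate_zero, id]
      conv_lhs => rw [← sum_single x]
      rw [sum_def']
      refine Finset.sum_congr rfl fun g _ => ?_
      rw [pow_zero, one_mul]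
    | succ m ih =>
      rw [Function.iterate_succ_apply', ih, _root_.map_sum]
      refine Finset.sum_congr rfl fun g _ => ?_
      rw [der_single, pow_succ', mul_assoc]
  have h1 := key 1
  rw [Function.iterate_one] at h1
  rw [key p, h1]
  refine Finset.sum_congr rfl fun g _ => ?_
  congr 2
  funext y
  rw [Fn.pow_apply, ZMod.pow_card, pow_one]

lemma ev_der {T : Γ → Prop} {δ : Γ → Γ → ZMod p} (hT : ∀ x, T x → δ x x = 0) (x : Cr Γ p) :
    ev T id (der δ x) = 0 := by
  induction x using SkewMonoidAlgebra.induction_on' with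
  | single g f =>
    rw [der_single, ev_single]
    simp only [id]
    split_ifs with h
    · rw [Fn.mul_apply, dfun]
      have : g⁻¹ * g * g = g := by group
      rw [this, hT g h, zero_mul]
    · rfl
  | add x x' h h' => rw [map_add, map_add, h, h', add_zero]

end der

end Pool.Agent.Lib.MP_8f66f0_al_Dennis
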