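import Mathlib
import Pool.Agent.Lib.MP_8f66f0_al_Dennis.Core
import Pool.Agent.Lib.MP_8f66f0_al_Dennis.Crossed

/-! The Frobenius congruence for the Dennis trace: group rings. -/

set_option autoImplicit false
set_option linter.unusedSectionVars false

namespace Pool.Agent.Lib.MP_8f66f0_al_Dennis

open Finset

section groupring

variable {Γ : Type*} [Group Γ] {p : ℕ}

open SkewMonoidAlgebra

/-- The embedding of the integral group ring (modulo `p`) in the crossed product. -/
noncomputable def incl (Γ : Type*) [Group Γ] (p : ℕ) : MonoidAlgebra ℤ Γ →ₐ[ℤ] Cr Γ p :=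
  MonoidAlgebra.lift ℤ (Cr Γ p) Γ (SkewMonoidAlgebra.of (Fn Γ p) Γ)

lemma Fn.intCast_apply (m : ℤ) (x : Γ) : ((m : Fn Γ p)) x = (m : ZMod p) := rfl

lemma incl_eq (x : MonoidAlgebra ℤ Γ) :
    incl Γ p x = ∑ g ∈ x.coeff.support, (single g ((x.coeff g : ℤ) : Fn Γ p) : Cr Γ p) := by
  rw [incl, MonoidAlgebra.lift_apply, Finsupp.sum]
  refine Finset.sum_congr rfl fun g _ => ?_
  rw [of_apply, Algebra.smul_def, eq_intCast, intCast_def, single_mul_single, one_mul, one_smul,
    mul_one]

open Classical in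
lemma ev_incl_mul (T : Γ → Prop) (e : Γ → Γ) (he : ∀ g, Commute g (e g))
    (δ : Γ → Γ → ZMod p) (b a : MonoidAlgebra ℤ Γ) :
    ev T e (incl Γ p b * der δ (incl Γ p a)) =
      b.coeff.sum fun g m => a.coeff.sum fun h k =>
        if T (e (g * h)) then ((m * k : ℤ) : ZMod p) * δ h (e (g * h)) else 0 := by
  rw [incl_eq, incl_eq, _root_.map_sum, Finset.sum_mul_sum, _root_.map_sum, Finsupp.sum]
  refine Finset.sum_congr rfl fun g _ => ?_
  rw [_root_.map_sum, Finsupp.sum]
  refine Finset.sum_congr rfl fun h _ => ?_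
  rw [der_single, single_mul_single, ev_single]
  have hx : h⁻¹ * (g⁻¹ * e (g * h) * g) * h = e (g * h) := by
    have h1 : h⁻¹ * (g⁻¹ * e (g * h) * g) * h = (g * h)⁻¹ * e (g * h) * (g * h) := by group
    rw [h1, mul_assoc, ← (he (g * h)).eq]; group
  split_ifs with hT
  · rw [Fn.mul_apply, Fn.gsmul_apply, Fn.mul_apply, Fn.intCast_apply, Fn.intCast_apply, dfun, hx]
    push_cast
    ring
  · rfl

open Classical in
/-- The Frobenius congruence for the Dennis trace of an invertible matrix. -/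
lemma frobenius [hp : Fact p.Prime] {ι : Type*} [Fintype ι] [DecidableEq ι]
    {T : Γ → Prop} (hT : ∀ g x, T x → T (g * x * g⁻¹))
    {δ : Γ → Γ → ZMod p} (hδ : ∀ g h x, δ (g * h) x = δ g (h * x * h⁻¹) + δ h x)
    (hδT : ∀ x, T x → δ x x = 0)
    {A B : Matrix ι ι (MonoidAlgebra ℤ Γ)} (hAB : A * B = 1) (hBA : B * A = 1) :
    (∑ i, ∑ j, (B i j).coeff.sum fun g m => (A j i).coeff.sum fun h k =>
        if T (g * h) then ((m * k : ℤ) : ZMod p) * δ h (g * h) else 0) =
    ∑ i, ∑ j, (B i j).coeff.sum fun g m => (A j i).coeff.sum fun h k =>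
        if T ((g * h) ^ p) then ((m * k : ℤ) : ZMod p) * δ h ((g * h) ^ p) else 0 := by
  set A' : Matrix ι ι (Cr Γ p) := A.map (incl Γ p) with hA'
  set B' : Matrix ι ι (Cr Γ p) := B.map (incl Γ p) with hB'
  have hmul : ∀ X Y : Matrix ι ι (MonoidAlgebra ℤ Γ),
      (X * Y).map (incl Γ p) = X.map (incl Γ p) * Y.map (incl Γ p) := by
    intro X Y
    exact Matrix.map_mul
  have hone : (1 : Matrix ι ι (MonoidAlgebra ℤ Γ)).map (incl Γ p) = 1 :=
    Matrix.map_one _ (_root_.map_zero _) (_root_.map_one _)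
  have hAB' : A' * B' = 1 := by rw [hA', hB', ← hmul, hAB, hone]
  have hBA' : B' * A' = 1 := by rw [hA', hB', ← hmul, hBA, hone]
  have key := mtr_key (ev_isTr (p := p) hT) (der_mul hδ) (ev_der hδT) (der_iterate δ) hAB' hBA'
  have hentry : ∀ (e : Γ → Γ) (_ : ∀ g, Commute g (e g)) (i : ι),
      ev T e ((B' * mder (der δ) A') i i) =
      ∑ j, (B i j).coeff.sum fun g m => (A j i).coeff.sum fun h k =>
        if T (e (g * h)) then ((m * k : ℤ) : ZMod p) * δ h (e (g * h)) else 0 := by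
    intro e he i
    rw [Matrix.mul_apply, _root_.map_sum]
    refine Finset.sum_congr rfl fun j _ => ?_
    rw [mder_apply, hA', hB', Matrix.map_apply, Matrix.map_apply]
    exact ev_incl_mul T e he δ _ _
  have h1 := Finset.sum_congr rfl fun (i : ι) (_ : i ∈ Finset.univ) =>
    hentry id (fun g => Commute.refl g) i
  have h2 := Finset.sum_congr rfl fun (i : ι) (_ : i ∈ Finset.univ) =>
    hentry (fun g => g ^ p) (fun g => (Commute.refl g).pow_right p) i
  simp only [id] at h1
  rw [← h1, ← h2, key]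
  refine Finset.sum_congr rfl fun i _ => ?_
  exact ev_pow hT _

end groupring

end Pool.Agent.Lib.MP_8f66f0_al_Dennis
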