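import Mathlib
import Pool.Agent.Lib.MP_8f66f0_al_Dennis.Frob

set_option autoImplicit false
set_option linter.unusedSectionVars false

namespace Pool.Agent.Lib.MP_8f66f0_al_Dennis

open Finset

variable {Γ : Type*} [Group Γ] {p : ℕ}

lemma cocycle_one {V : Type*} [AddCommGroup V] {S : Γ → Prop} {δ : Γ → Γ → V}
    (hδ : ∀ g h x, S x → δ (g * h) x = δ g (h * x * h⁻¹) + δ h x) {x : Γ} (hx : S x) :
    δ 1 x = 0 := by
  have := hδ 1 1 x hx
  simpa using this

lemma cocycle_pow {V : Type*} [AddCommGroup V] {S : Γ → Prop} {δ : Γ → Γ → V}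
    (hδ : ∀ g h x, S x → δ (g * h) x = δ g (h * x * h⁻¹) + δ h x) {x : Γ} (hx : S x) (m : ℕ) :
    δ (x ^ m) x = m • δ x x := by
  induction m with
  | zero => rw [pow_zero, cocycle_one hδ hx, zero_smul]
  | succ m ih =>
    rw [pow_succ, hδ _ _ _ hx]
    have : x * x * x⁻¹ = x := by group
    rw [this, ih, succ_nsmul]

open Classical in
/-- Vanishing modulo `p` on a conjugation invariant set. -/
lemma vanish_mod [hp : Fact p.Prime] {ι : Type*} [Fintype ι] [DecidableEq ι]
    {S : Γ → Prop} (hS : ∀ g x, S x → S (g * x * g⁻¹))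
    (hroot : ∀ x y, S x → x ^ p = y ^ p → x = y)
    {δ : Γ → Γ → ZMod p} (hδ : ∀ g h x, S x → δ (g * h) x = δ g (h * x * h⁻¹) + δ h x)
    {A B : Matrix ι ι (MonoidAlgebra ℤ Γ)} (hAB : A * B = 1) (hBA : B * A = 1)
    (hsupp : ∀ i j, ∀ g ∈ (B i j).coeff.support, ∀ h ∈ (A j i).coeff.support, ∀ x, S x →
      x ^ p ≠ g * h) :
    (∑ i, ∑ j, (B i j).coeff.sum fun g b => (A j i).coeff.sum fun h a =>
        if S (g * h) then ((b * a : ℤ) : ZMod p) * δ h (g * h) else 0) = 0 := by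
  set T : Γ → Prop := fun y => ∃ x, S x ∧ x ^ p = y with hT
  set δ' : Γ → Γ → ZMod p := fun g y => if h : T y then δ g h.choose else 0 with hδ'
  have hval : ∀ g x, S x → δ' g (x ^ p) = δ g x := by
    intro g x hx
    have hTx : T (x ^ p) := ⟨x, hx, rfl⟩
    rw [hδ']
    dsimp only
    rw [dif_pos hTx]
    have := hTx.choose_spec
    rw [← hroot x _ hx this.2.symm]
  have hTconj : ∀ g y, T y → T (g * y * g⁻¹) := by
    rintro g y ⟨x, hx, rfl⟩
    exact ⟨g * x * g⁻¹, hS g x hx, conj_pow⟩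
  have hcoc : ∀ g h y, δ' (g * h) y = δ' g (h * y * h⁻¹) + δ' h y := by
    intro g h y
    by_cases hy : T y
    · obtain ⟨x, hx, rfl⟩ := hy
      have e : h * x ^ p * h⁻¹ = (h * x * h⁻¹) ^ p := conj_pow.symm
      rw [e, hval _ _ hx, hval _ _ hx, hval _ _ (hS h x hx), hδ _ _ _ hx]
    · have hy' : ¬ T (h * y * h⁻¹) := by
        intro H
        apply hy
        have := hTconj h⁻¹ _ H
        have e : h⁻¹ * (h * y * h⁻¹) * h⁻¹⁻¹ = y := by group
        rwa [e] at this
      rw [hδ']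
      dsimp only
      rw [dif_neg hy, dif_neg hy', dif_neg hy, add_zero]
  have hdiag : ∀ y, T y → δ' y y = 0 := by
    rintro y ⟨x, hx, rfl⟩
    rw [hval _ _ hx, cocycle_pow hδ hx, nsmul_eq_mul, ZMod.natCast_self, zero_mul]
  have key := frobenius hTconj hcoc hdiag hAB hBA
  have h1 : (∑ i, ∑ j, (B i j).coeff.sum fun g b => (A j i).coeff.sum fun h a =>
        if S (g * h) then ((b * a : ℤ) : ZMod p) * δ h (g * h) else 0) =
      ∑ i, ∑ j, (B i j).coeff.sum fun g m => (A j i).coeff.sum fun h k =>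
        if T ((g * h) ^ p) then ((m * k : ℤ) : ZMod p) * δ' h ((g * h) ^ p) else 0 := by
    refine Finset.sum_congr rfl fun i _ => Finset.sum_congr rfl fun j _ => ?_
    refine Finset.sum_congr rfl fun g _ => Finset.sum_congr rfl fun h _ => ?_
    by_cases hs : S (g * h)
    · dsimp only
      rw [if_pos hs, if_pos ⟨_, hs, rfl⟩, hval _ _ hs]
    · have : ¬ T ((g * h) ^ p) := by
        rintro ⟨x, hx, hxp⟩
        exact hs (hroot x _ hx hxp ▸ hx)
      dsimp only
      rw [if_neg hs, if_neg this]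
  rw [h1, ← key]
  refine Finset.sum_eq_zero fun i _ => Finset.sum_eq_zero fun j _ => ?_
  refine Finset.sum_eq_zero fun g hg => Finset.sum_eq_zero fun h hh => ?_
  have : ¬ T (g * h) := by
    rintro ⟨x, hx, hxp⟩
    exact hsupp i j g hg h hh x hx hxp
  dsimp only
  rw [if_neg this]

end Pool.Agent.Lib.MP_8f66f0_al_Dennis
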