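import Mathlib
import Pool.Agent.Lib.MP_8f66f0_al_Dennis.Defs
import Pool.Agent.Lib.MP_8f66f0_al_Dennis.Pointwise

set_option autoImplicit false
set_option linter.unusedSectionVars false

namespace Pool.Agent.Lib.MP_8f66f0_al_Dennis

open Finset

variable {Γ : Type*} [Group Γ]

lemma exists_res (H : Subgroup Γ) (x : MonoidAlgebra ℤ Γ) (hx : ∀ g ∈ x.coeff.support, g ∈ H) :
    ∃ y : MonoidAlgebra ℤ H, MonoidAlgebra.mapDomainRingHom ℤ H.subtype y = x := by
  refine ⟨MonoidAlgebra.ofCoeff (x.coeff.comapDomain Subtype.val Subtype.val_injective.injOn), ?_⟩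
  rw [MonoidAlgebra.mapDomainRingHom_apply, MonoidAlgebra.mapDomain]
  apply MonoidAlgebra.coeff_injective
  change Finsupp.mapDomain Subtype.val _ = _
  rw [Finsupp.mapDomain_comapDomain _ Subtype.val_injective]
  intro g hg
  exact ⟨⟨g, hx g hg⟩, rfl⟩

lemma coeff_res {H : Subgroup Γ} {x : MonoidAlgebra ℤ Γ} {y : MonoidAlgebra ℤ H}
    (h : MonoidAlgebra.mapDomainRingHom ℤ H.subtype y = x) :
    x.coeff = y.coeff.embDomain ⟨Subtype.val, Subtype.val_injective⟩ := by
  rw [← h, MonoidAlgebra.mapDomainRingHom_apply, MonoidAlgebra.mapDomain,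
    Finsupp.embDomain_eq_mapDomain]
  rfl

lemma sum_res {V : Type*} [AddCommMonoid V] {H : Subgroup Γ} {x : MonoidAlgebra ℤ Γ}
    {y : MonoidAlgebra ℤ H}
    (h : MonoidAlgebra.mapDomainRingHom ℤ H.subtype y = x) (f : Γ → ℤ → V) :
    x.coeff.sum f = y.coeff.sum fun g m => f g m := by
  rw [coeff_res h, Finsupp.sum_embDomain]
  rfl

open Classical in
/-- Vanishing modulo `p` for matrices whose entries are supported in a subgroup. -/
lemma vanish_mod_subgroup {p : ℕ} [hp : Fact p.Prime] {n : ℕ} (H : Subgroup Γ)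
    {A B : Matrix (Fin n) (Fin n) (MonoidAlgebra ℤ Γ)} (hAB : A * B = 1) (hBA : B * A = 1)
    {F : Finset H}
    (hA : ∀ i j, ∀ g ∈ (A i j).coeff.support, g ∈ H)
    (hB : ∀ i j, ∀ g ∈ (B i j).coeff.support, g ∈ H)
    (hF : ∀ i j, ∀ g ∈ (B i j).coeff.support, ∀ h ∈ (A j i).coeff.support,
      ∃ u ∈ F, (u : Γ) = g * h)
    {c : Γ} (hc : c ≠ 1)
    (hroot : ∀ x y : H, x ^ p = y ^ p → x = y)
    (hconj : ∀ u ∈ F, ∀ v ∈ F, v ≠ 1 → ¬ IsConj u (v ^ p))
    {δ : Γ → Γ → ZMod p} (hδ : IsClassCocycle c δ) : dennisPairing A B c δ = 0 := by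
  choose A' hA' using fun i j => exists_res H (A i j) (hA i j)
  choose B' hB' using fun i j => exists_res H (B i j) (hB i j)
  set φ := MonoidAlgebra.mapDomainRingHom ℤ H.subtype with hφ
  have hφinj : Function.Injective φ := MonoidAlgebra.mapDomain_injective Subtype.val_injective
  have hmul : ∀ X Y : Matrix (Fin n) (Fin n) (MonoidAlgebra ℤ H),
      (X * Y).map φ = X.map φ * Y.map φ := fun X Y => Matrix.map_mul
  have hone : (1 : Matrix (Fin n) (Fin n) (MonoidAlgebra ℤ H)).map φ = 1 :=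
    Matrix.map_one _ (map_zero _) (map_one _)
  have hAm : (Matrix.of A').map φ = A := by ext1 i j; exact hA' i j
  have hBm : (Matrix.of B').map φ = B := by ext1 i j; exact hB' i j
  have hABH : (Matrix.of A') * (Matrix.of B') = 1 := by
    apply Matrix.map_injective hφinj
    change ((Matrix.of A') * (Matrix.of B')).map φ = (1 : Matrix _ _ _).map φ
    rw [hmul, hAm, hBm, hone, hAB]
  have hBAH : (Matrix.of B') * (Matrix.of A') = 1 := by
    apply Matrix.map_injective hφinj
    change ((Matrix.of B') * (Matrix.of A')).map φ = (1 : Matrix _ _ _).map φ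
    rw [hmul, hAm, hBm, hone, hBA]
  have hsuppA : ∀ i j, ∀ g : H, g ∈ (A' i j).coeff.support → (g : Γ) ∈ (A i j).coeff.support := by
    intro i j g hg
    rw [coeff_res (hA' i j), Finsupp.support_embDomain]
    exact Finset.mem_map_of_mem _ hg
  have hsuppB : ∀ i j, ∀ g : H, g ∈ (B' i j).coeff.support → (g : Γ) ∈ (B i j).coeff.support := by
    intro i j g hg
    rw [coeff_res (hB' i j), Finsupp.support_embDomain]
    exact Finset.mem_map_of_mem _ hg
  have hF' : ∀ i j, ∀ g ∈ (B' i j).coeff.support, ∀ h ∈ (A' j i).coeff.support, g * h ∈ F := by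
    intro i j g hg h hh
    obtain ⟨u, hu, hu'⟩ := hF i j g (hsuppB i j g hg) h (hsuppA j i h hh)
    have : u = g * h := Subtype.ext (by rw [hu']; rfl)
    rwa [← this]
  set S : H → Prop := fun x => IsConj c (x : Γ) ∧ ∃ u ∈ F, IsConj u x with hS
  have hSconj : ∀ g x, S x → S (g * x * g⁻¹) := by
    rintro g x ⟨h1, u, hu, h2⟩
    refine ⟨h1.trans (isConj_iff.mpr ⟨g, rfl⟩), u, hu, h2.trans (isConj_iff.mpr ⟨g, rfl⟩)⟩
  have key := vanish_mod (p := p) (S := S) hSconj (fun x y _ h => hroot x y h)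
    (δ := fun g x => δ g x) (fun g h x hx => hδ g h x hx.1) hABH hBAH (by
      rintro i j g hg h hh x ⟨hx1, u, hu, hux⟩ hxp
      have hu1 : u ≠ 1 := by
        rintro rfl
        have : x = 1 := by
          have := isConj_one_right.mp hux
          exact this
        rw [this] at hx1
        exact hc (isConj_one_left.mp hx1)
      refine hconj _ (hF' i j g hg h hh) u hu hu1 ?_
      rw [← hxp]
      exact (IsConj.pow p hux).symm)
  rw [← key]
  unfold dennisPairing
  refine Finset.sum_congr rfl fun i _ => Finset.sum_congr rfl fun j _ => ?_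
  rw [sum_res (hB' i j)]
  refine Finset.sum_congr rfl fun g hg => ?_
  dsimp only
  rw [sum_res (hA' j i)]
  refine Finset.sum_congr rfl fun h hh => ?_
  have hiff : IsConj c ((g : Γ) * (h : Γ)) ↔ S (g * h) :=
    ⟨fun H' => ⟨H', g * h, hF' i j g hg h hh, IsConj.refl _⟩, fun H' => H'.1⟩
  by_cases hs : S (g * h)
  · dsimp only [Matrix.of_apply]
    rw [if_pos hs, if_pos (hiff.mpr hs), zsmul_eq_mul]
    rfl
  · dsimp only
    rw [if_neg hs, if_neg (fun H' => hs (hiff.mp H'))]

end Pool.Agent.Lib.MP_8f66f0_al_Dennis
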