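import Mathlib

/-! In characteristic `p`, an invertible matrix two distinct powers of which are conjugate has
finite order. -/

set_option autoImplicit false

namespace Pool.Agent.Lib.MP_8f66f0_al_Dennis

open Polynomial

lemma torsion_of_finite_set {K : Type*} [Field K] {Λ : Set K} (hfin : Λ.Finite)
    (h0 : (0 : K) ∉ Λ) {a b : ℕ} (ha : 0 < a) (hab : a ≠ b)
    (h : ∀ x ∈ Λ, ∃ y ∈ Λ, x ^ a = y ^ b) : ∀ x ∈ Λ, ∃ N : ℕ, 0 < N ∧ x ^ N = 1 := by
  have hf : ∀ x : Λ, ∃ y : Λ, (x : K) ^ a = (y : K) ^ b := by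
    rintro ⟨x, hx⟩
    obtain ⟨y, hy, hxy⟩ := h x hx
    exact ⟨⟨y, hy⟩, hxy⟩
  choose f hf using hf
  have hiter : ∀ (j : ℕ) (x : Λ), (x : K) ^ (a ^ j) = ((f^[j] x : Λ) : K) ^ (b ^ j) := by
    intro j
    induction j with
    | zero => intro x; simp
    | succ j ih =>
      intro x
      rw [Function.iterate_succ_apply, pow_succ' a, pow_mul, hf, ← pow_mul, mul_comm b, pow_mul,
        ih, ← pow_mul, pow_succ]
  intro x hx
  have : Finite Λ := hfin
  obtain ⟨i, j, hij, hfij⟩ := Finite.exists_ne_map_eq_of_infinite (fun n : ℕ => f^[n] ⟨x, hx⟩)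
  wlog hlt : i < j generalizing i j
  · exact this j i hij.symm hfij.symm (by omega)
  obtain ⟨k, rfl⟩ : ∃ k, j = k + i := ⟨j - i, by omega⟩
  have hk : 0 < k := by omega
  set μ : Λ := f^[i] ⟨x, hx⟩ with hμ
  have hfix : f^[k] μ = μ := by
    rw [Function.iterate_add_apply] at hfij
    exact hfij.symm
  have hμ0 : (μ : K) ≠ 0 := fun h => h0 (h ▸ μ.2)
  have h1 : (μ : K) ^ (a ^ k) = (μ : K) ^ (b ^ k) := by
    rw [hiter k μ, hfix]
  have hne : a ^ k ≠ b ^ k := fun h => hab (Nat.pow_left_injective (by omega) h)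
  have hμt : ∃ n : ℕ, 0 < n ∧ (μ : K) ^ n = 1 := by
    rcases lt_or_gt_of_ne hne with hl | hl
    · refine ⟨b ^ k - a ^ k, by omega, ?_⟩
      have h2 : (μ : K) ^ (b ^ k) = (μ : K) ^ (b ^ k - a ^ k) * (μ : K) ^ (a ^ k) := by
        rw [← pow_add]; congr 1; omega
      rw [← h1] at h2
      exact (mul_eq_right₀ (pow_ne_zero _ hμ0)).mp h2.symm
    · refine ⟨a ^ k - b ^ k, by omega, ?_⟩
      have h2 : (μ : K) ^ (a ^ k) = (μ : K) ^ (a ^ k - b ^ k) * (μ : K) ^ (b ^ k) := by
        rw [← pow_add]; congr 1; omega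
      rw [h1] at h2
      exact (mul_eq_right₀ (pow_ne_zero _ hμ0)).mp h2.symm
  obtain ⟨n, hn, hμn⟩ := hμt
  refine ⟨a ^ i * n, Nat.mul_pos (pow_pos ha _) hn, ?_⟩
  have h3 := hiter i ⟨x, hx⟩
  rw [← hμ] at h3
  have h4 : x ^ (a ^ i) = (μ : K) ^ (b ^ i) := h3
  rw [pow_mul, h4, ← pow_mul, mul_comm, pow_mul, hμn, one_pow]

/-- The algebraically closed case. -/
lemma matrix_torsion {K : Type*} [Field K] [IsAlgClosed K] {p : ℕ} [hp : Fact p.Prime] [CharP K p]
    {m : ℕ} (v g : Matrix.GeneralLinearGroup (Fin m) K) {a b : ℕ} (ha : 0 < a) (hb : 0 < b)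
    (hab : a ≠ b) (h : g * v ^ a * g⁻¹ = v ^ b) : ∃ N : ℕ, 0 < N ∧ v ^ N = 1 := by
  classical
  rcases Nat.eq_zero_or_pos m with rfl | hm
  · exact ⟨1, one_pos, Subsingleton.elim _ _⟩
  have : Nonempty (Fin m) := ⟨⟨0, hm⟩⟩
  set M : Matrix (Fin m) (Fin m) K := (v : Matrix (Fin m) (Fin m) K) with hM
  set Λ := spectrum K M with hΛ
  have hfin : Λ.Finite := Matrix.finite_spectrum M
  have h0 : (0 : K) ∉ Λ := by
    rw [hΛ, spectrum.zero_notMem_iff]
    exact v.isUnit
  have hspec : spectrum K (M ^ a) = spectrum K (M ^ b) := by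
    have h1 : (g : Matrix (Fin m) (Fin m) K) * M ^ a * (g⁻¹ : Matrix.GeneralLinearGroup (Fin m) K)
        = M ^ b := by
      have := congrArg (Units.val) h
      rw [Units.val_mul, Units.val_mul, Units.val_pow_eq_pow_val, Units.val_pow_eq_pow_val] at this
      exact this
    rw [← h1, spectrum.units_conjugate]
  rw [spectrum.map_pow_of_pos M ha, spectrum.map_pow_of_pos M hb] at hspec
  have htor := torsion_of_finite_set hfin h0 ha hab (fun x hx => by
    have : x ^ a ∈ (fun z : K => z ^ b) '' Λ := by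
      rw [← hspec]; exact ⟨x, hx, rfl⟩
    obtain ⟨y, hy, hxy⟩ := this
    exact ⟨y, hy, hxy.symm⟩)
  choose! n hn using htor
  set N := ∏ x ∈ hfin.toFinset, n x with hN
  have hNpos : 0 < N := Finset.prod_pos fun x hx => (hn x (hfin.mem_toFinset.mp hx)).1
  have hNone : ∀ x ∈ Λ, x ^ N = 1 := by
    intro x hx
    obtain ⟨k, hk⟩ := Finset.dvd_prod_of_mem n (hfin.mem_toFinset.mpr hx)
    rw [hN, hk, pow_mul, (hn x hx).2, one_pow]
  have hroots : ∀ x ∈ (M ^ N).charpoly.roots, x = 1 := by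
    intro x hx
    have hx1 : x ∈ spectrum K (M ^ N) := by
      apply Matrix.mem_spectrum_of_isRoot_charpoly
      exact (Polynomial.mem_roots'.mp hx).2
    rw [spectrum.map_pow_of_pos M hNpos] at hx1
    obtain ⟨y, hy, rfl⟩ := hx1
    exact hNone y hy
  have hchar : (M ^ N).charpoly = (X - C 1) ^ (Multiset.card (M ^ N).charpoly.roots) := by
    have hs : (M ^ N).charpoly.Splits := IsAlgClosed.splits _
    have h1 := hs.eq_prod_roots_of_monic (Matrix.charpoly_monic _)
    have h2 : (M ^ N).charpoly.roots =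
        Multiset.replicate (Multiset.card (M ^ N).charpoly.roots) 1 :=
      Multiset.eq_replicate_card.mpr hroots
    conv_lhs => rw [h1, h2]
    rw [Multiset.map_replicate, Multiset.prod_replicate]
  have hnil : (M ^ N - 1) ^ (Multiset.card (M ^ N).charpoly.roots) = 0 := by
    have h1 := Matrix.aeval_self_charpoly (M ^ N)
    rw [hchar] at h1
    simpa using h1
  set r := Multiset.card (M ^ N).charpoly.roots with hr
  have hpow : (M ^ N - 1) ^ (p ^ r) = 0 := by
    have hle : r ≤ p ^ r := (Nat.lt_pow_self hp.out.one_lt).le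
    obtain ⟨s, hs⟩ := Nat.exists_eq_add_of_le hle
    rw [hs, pow_add, hnil, zero_mul]
  have hcharM : CharP (Matrix (Fin m) (Fin m) K) p := Matrix.charP p
  have hfrob := sub_pow_char_pow_of_commute (p := p) r (Commute.one_right (M ^ N))
  rw [hfrob, one_pow, sub_eq_zero, ← pow_mul] at hpow
  refine ⟨N * p ^ r, Nat.mul_pos hNpos (pow_pos hp.out.pos _), ?_⟩
  apply Units.ext
  rw [Units.val_pow_eq_pow_val, Units.val_one]
  exact hpow

lemma linear_torsion {F : Type*} [Field F] {p : ℕ} [hp : Fact p.Prime] [CharP F p]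
    {m : ℕ} (v g : Matrix.GeneralLinearGroup (Fin m) F) {a b : ℕ} (ha : 0 < a) (hb : 0 < b)
    (hab : a ≠ b) (h : g * v ^ a * g⁻¹ = v ^ b) : ∃ N : ℕ, 0 < N ∧ v ^ N = 1 := by
  set ι : F →+* AlgebraicClosure F := algebraMap F (AlgebraicClosure F) with hι
  set μ : Matrix.GeneralLinearGroup (Fin m) F →*
    Matrix.GeneralLinearGroup (Fin m) (AlgebraicClosure F) :=
    Matrix.GeneralLinearGroup.map ι with hμ
  have hμinj : Function.Injective μ := by
    intro x y hxy
    apply Units.ext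
    ext i j
    apply ι.injective
    have h1 : (μ x) i j = (μ y) i j := by rw [hxy]
    exact h1
  have : CharP (AlgebraicClosure F) p := charP_of_injective_algebraMap ι.injective p
  obtain ⟨N, hN, hv⟩ := matrix_torsion (p := p) (μ v) (μ g) ha hb hab (by
    rw [← map_pow, ← map_pow, ← map_inv, ← map_mul, ← map_mul, h])
  exact ⟨N, hN, hμinj (by rw [map_pow, hv, map_one])⟩

end Pool.Agent.Lib.MP_8f66f0_al_Dennis
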