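import Mathlib

/-! Residue characteristics of finitely generated domains of characteristic zero. -/

set_option autoImplicit false

namespace Pool.Agent.Lib.MP_8f66f0_al_Dennis

lemma int_isJacobsonRing : IsJacobsonRing ℤ := by
  rw [isJacobsonRing_iff_prime_eq]
  intro P hP
  by_cases hbot : P = ⊥
  · subst hbot
    rw [eq_bot_iff]
    intro x hx
    by_contra hne
    have hx0 : x ≠ 0 := fun h => hne (by rw [h]; exact Submodule.zero_mem _)
    obtain ⟨p, hp, hpp⟩ := Nat.exists_infinite_primes (x.natAbs + 1)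
    have hmax : (Ideal.span {(p : ℤ)}).IsMaximal := by
      have hprime : (Ideal.span {(p : ℤ)}).IsPrime := by
        rw [Ideal.span_singleton_prime (by exact_mod_cast hpp.ne_zero)]
        exact Nat.prime_iff_prime_int.mp hpp
      exact hprime.isMaximal (by
        rw [Ne, Ideal.span_singleton_eq_bot]
        exact_mod_cast hpp.ne_zero)
    have := Ideal.mem_sInf.mp hx (I := Ideal.span {(p : ℤ)}) ⟨bot_le, hmax⟩
    rw [Ideal.mem_span_singleton] at this
    have h2 : p ∣ x.natAbs := Int.natCast_dvd.mp this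
    have := Nat.le_of_dvd (Int.natAbs_pos.mpr hx0) h2
    omega
  · have := hP.isMaximal hbot
    exact Ideal.jacobson_eq_self_of_isMaximal

/-- A field which is finitely generated as a ring is finite, of positive characteristic. -/
lemma finite_field_of_finiteType (K : Type*) [Field K] [Algebra.FiniteType ℤ K] :
    Finite K ∧ ∃ q : ℕ, q.Prime ∧ (q : K) = 0 := by
  have := int_isJacobsonRing
  have hfin : Module.Finite ℤ K := finite_of_finite_type_of_isJacobsonRing ℤ K
  obtain ⟨q, hq⟩ := CharP.exists K
  have hq0 : q ≠ 0 := by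
    rintro rfl
    have : CharZero K := CharP.charP_to_charZero K
    have hint : Algebra.IsIntegral ℤ K := inferInstance
    have hinj : Function.Injective (algebraMap ℤ K) := by
      rw [algebraMap_int_eq]
      exact Int.cast_injective
    have hfield : IsField ℤ := isField_of_isIntegral_of_isField hinj (Field.toIsField K)
    obtain ⟨b, hb⟩ := hfield.mul_inv_cancel (a := 2) (by norm_num)
    omega
  have hqp : q.Prime := (CharP.char_is_prime_or_zero K q).resolve_right hq0
  refine ⟨?_, q, hqp, CharP.cast_eq_zero K q⟩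
  have : Fact q.Prime := ⟨hqp⟩
  let _ : Algebra (ZMod q) K := ZMod.algebra K q
  have : Module.Finite (ZMod q) K := by
    obtain ⟨s, hs⟩ := hfin.fg_top
    refine ⟨s, ?_⟩
    rw [eq_top_iff]
    intro x _
    have hx : x ∈ Submodule.span ℤ (s : Set K) := by rw [hs]; trivial
    refine Submodule.span_induction (p := fun x _ => x ∈ Submodule.span (ZMod q) (s : Set K))
      (fun x hx => Submodule.subset_span hx) (Submodule.zero_mem _)
      (fun x y _ _ hx hy => Submodule.add_mem _ hx hy) (fun a x _ hx => ?_) hx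
    rw [← Int.cast_smul_eq_zsmul (ZMod q)]
    exact Submodule.smul_mem _ _ hx
  exact Module.finite_of_finite (ZMod q)

/-- A finitely generated domain of characteristic zero has infinitely many residue
characteristics. -/
lemma residue_chars (R : Type*) [CommRing R] [IsDomain R] [CharZero R] [Algebra.FiniteType ℤ R] :
    {q : ℕ | q.Prime ∧ ∃ m : Ideal R, m.IsMaximal ∧ (q : R) ∈ m ∧ Finite (R ⧸ m)}.Infinite := by
  intro hfin
  have := int_isJacobsonRing
  have hJ : IsJacobsonRing R := isJacobsonRing_of_finiteType (A := ℤ)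
  have hbot : (⊥ : Ideal R).jacobson = ⊥ := by
    apply hJ.out
    exact (Ideal.isPrime_bot).isRadical
  set s := hfin.toFinset with hs
  have hprod : ((∏ q ∈ s, q : ℕ) : R) ∈ (⊥ : Ideal R).jacobson := by
    apply Ideal.mem_sInf.mpr
    rintro m ⟨_, hm⟩
    have hft0 : Algebra.FiniteType ℤ (R ⧸ m) :=
      Algebra.FiniteType.of_surjective (Ideal.Quotient.mkₐ ℤ m) (Ideal.Quotient.mkₐ_surjective ℤ m)
    let _ : Field (R ⧸ m) := Ideal.Quotient.field m
    have hft : @Algebra.FiniteType ℤ (R ⧸ m) _ _ (Ring.toIntAlgebra _) := by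
      convert! hft0
    obtain ⟨hf, q, hq, hq0⟩ := finite_field_of_finiteType (R ⧸ m)
    have hqm : (q : R) ∈ m := by
      rw [← Ideal.Quotient.eq_zero_iff_mem, map_natCast]
      exact hq0
    have hqs : q ∈ s := by
      rw [hs, Set.Finite.mem_toFinset]
      exact ⟨hq, m, hm, hqm, hf⟩
    obtain ⟨k, hk⟩ := Finset.dvd_prod_of_mem (fun q : ℕ => q) hqs
    have hk' : ∏ q ∈ s, q = q * k := hk
    rw [hk', Nat.cast_mul]
    exact m.mul_mem_right _ hqm
  rw [hbot, Ideal.mem_bot, Nat.cast_eq_zero, Finset.prod_eq_zero_iff] at hprod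
  obtain ⟨q, hq, hq0⟩ := hprod
  rw [hs, Set.Finite.mem_toFinset] at hq
  exact hq.1.ne_zero hq0

end Pool.Agent.Lib.MP_8f66f0_al_Dennis
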