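import Mathlib
import Pool.Agent.Lib.MP_8f66f0_al_Dennis.Residue

/-! All but finitely many primes are residue characteristics of a finitely generated domain of
characteristic zero. -/

set_option autoImplicit false

namespace Pool.Agent.Lib.MP_8f66f0_al_Dennis

universe u

lemma isIntegral_nat {K : Type*} [Field K] (n : ℕ) : IsIntegral ℤ (n : K) := by
  have h : (n : K) = algebraMap ℤ K n := by simp
  rw [h]; exact isIntegral_algebraMap

lemma not_isUnit_natCast_aux {K : Type*} [Field K] [Algebra ℚ K] [Module.Finite ℚ K]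
    {R : Type*} [CommRing R] (T : Finset R) (hT : Algebra.adjoin ℤ (T : Set R) = ⊤)
    (φ : R →+* K) :
    ∃ N : ℕ, N ≠ 0 ∧ ∀ p : ℕ, p.Prime → ¬ p ∣ N → ¬ IsUnit (p : R) := by
  classical
  -- denominators
  have hden : ∀ r : R, ∃ a : ℕ, a ≠ 0 ∧ IsIntegral ℤ ((a : K) * φ r) := by
    intro r
    have halg : IsAlgebraic ℤ (φ r) := by
      have h1 : IsAlgebraic ℚ (φ r) := Algebra.IsAlgebraic.isAlgebraic _
      exact (IsFractionRing.isAlgebraic_iff ℤ ℚ K).mpr h1
    obtain ⟨y, hy0, hy⟩ := halg.exists_integral_multiple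
    refine ⟨y.natAbs, Int.natAbs_ne_zero.mpr hy0, ?_⟩
    have h2 : IsIntegral ℤ ((y : K) * φ r) := by
      have : (y : K) * φ r = y • φ r := by rw [zsmul_eq_mul]
      rw [this]; exact hy
    have hcast : ((y.natAbs : ℕ) : K) = ((y.natAbs : ℤ) : K) := (Int.cast_natCast _).symm
    rcases Int.natAbs_eq y with h | h
    · rw [hcast, ← h]; exact h2
    · have h3 : ((y.natAbs : ℕ) : ℤ) = - y := by omega
      rw [hcast, h3, Int.cast_neg, neg_mul]; exact h2.neg
  choose a ha0 ha using hden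
  set N : ℕ := ∏ t ∈ T, a t with hN
  have hN0 : N ≠ 0 := Finset.prod_ne_zero_iff.mpr fun t _ => ha0 _
  refine ⟨N, hN0, fun p hp hpN hunit => ?_⟩
  -- every element times a power of N is integral
  have hint : ∀ x : R, ∃ j : ℕ, IsIntegral ℤ ((N : K) ^ j * φ x) := by
    intro x
    have hx : x ∈ Algebra.adjoin ℤ (T : Set R) := by rw [hT]; trivial
    induction hx using Algebra.adjoin_induction with
    | mem x hx =>
      refine ⟨1, ?_⟩
      obtain ⟨k, hk⟩ := Finset.dvd_prod_of_mem a (Finset.mem_coe.mp hx)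
      rw [← hN] at hk
      have h2 : (N : K) ^ 1 * φ x = (k : K) * ((a x : ℕ) * φ x) := by
        rw [hk]; push_cast; ring
      rw [h2]
      exact (isIntegral_nat k).mul (ha x)
    | algebraMap r =>
      refine ⟨0, ?_⟩
      have : φ (algebraMap ℤ R r) = algebraMap ℤ K r := by simp
      rw [pow_zero, one_mul, this]
      exact isIntegral_algebraMap
    | add x y hx hy ihx ihy =>
      obtain ⟨i, hi⟩ := ihx
      obtain ⟨j, hj⟩ := ihy
      refine ⟨i + j, ?_⟩
      have h2 : (N : K) ^ (i + j) * φ (x + y) =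
          (N : K) ^ j * ((N : K) ^ i * φ x) + (N : K) ^ i * ((N : K) ^ j * φ y) := by
        rw [map_add]; ring
      rw [h2]
      exact (((isIntegral_nat N).pow j).mul hi).add (((isIntegral_nat N).pow i).mul hj)
    | mul x y hx hy ihx ihy =>
      obtain ⟨i, hi⟩ := ihx
      obtain ⟨j, hj⟩ := ihy
      refine ⟨i + j, ?_⟩
      have h2 : (N : K) ^ (i + j) * φ (x * y) = ((N : K) ^ i * φ x) * ((N : K) ^ j * φ y) := by
        rw [map_mul]; ring
      rw [h2]
      exact hi.mul hj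
  obtain ⟨u, hu⟩ := hunit
  obtain ⟨j, hj⟩ := hint ((u⁻¹ : Rˣ) : R)
  have hcz : CharZero K := algebraRat.charZero K
  have h1 : (p : K) * φ ((u⁻¹ : Rˣ) : R) = 1 := by
    have h2 : ((p : ℕ) : R) * ((u⁻¹ : Rˣ) : R) = 1 := by
      rw [← hu]; exact u.mul_inv
    have h3 := congrArg φ h2
    rwa [map_mul, map_natCast, map_one] at h3
  have h2 : φ ((u⁻¹ : Rˣ) : R) = (p : K)⁻¹ := eq_inv_of_mul_eq_one_right h1
  have h3 : (N : K) ^ j * φ ((u⁻¹ : Rˣ) : R) = algebraMap ℚ K ((N : ℚ) ^ j / p) := by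
    rw [h2, map_div₀, map_pow, map_natCast, map_natCast, div_eq_mul_inv]
  rw [h3] at hj
  have h4 : IsIntegral ℤ ((N : ℚ) ^ j / p) :=
    (isIntegral_algebraMap_iff (algebraMap ℚ K).injective).mp hj
  obtain ⟨m, hm⟩ := IsIntegrallyClosed.isIntegral_iff.mp h4
  have h5 : (N : ℤ) ^ j = m * p := by
    have hp0' : (p : ℚ) ≠ 0 := by exact_mod_cast hp.ne_zero
    have h6 : (N : ℚ) ^ j = m * p := by
      have : (m : ℚ) = (N : ℚ) ^ j / p := by simpa using hm
      rw [this]; field_simp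
    exact_mod_cast h6
  have h6 : p ∣ N ^ j := by
    have : (p : ℤ) ∣ ((N ^ j : ℕ) : ℤ) := ⟨m, by push_cast; rw [h5]; ring⟩
    exact_mod_cast this
  exact hpN (hp.dvd_of_dvd_pow h6)

lemma exists_number_field_point {F : Type u} [Field F] [CharZero F] (T : Finset F) :
    ∃ (K : Type u) (_ : Field K) (_ : Algebra ℚ K) (_ : Module.Finite ℚ K),
      Nonempty (Algebra.adjoin ℤ (T : Set F) →+* K) := by
  have hSfg : (Algebra.adjoin ℚ (T : Set F)).FG := Subalgebra.fg_adjoin_finset T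
  have hft : Algebra.FiniteType ℚ (Algebra.adjoin ℚ (T : Set F)) :=
    (Algebra.adjoin ℚ (T : Set F)).fg_iff_finiteType.mp hSfg
  obtain ⟨n, hn⟩ := Ideal.exists_maximal (Algebra.adjoin ℚ (T : Set F))
  let fi : Field (Algebra.adjoin ℚ (T : Set F) ⧸ n) := Ideal.Quotient.field n
  have hft' : Algebra.FiniteType ℚ (Algebra.adjoin ℚ (T : Set F) ⧸ n) :=
    Algebra.FiniteType.of_surjective (Ideal.Quotient.mkₐ ℚ n) (Ideal.Quotient.mkₐ_surjective ℚ n)
  have hfin : Module.Finite ℚ (Algebra.adjoin ℚ (T : Set F) ⧸ n) :=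
    finite_of_finite_type_of_isJacobsonRing ℚ (Algebra.adjoin ℚ (T : Set F) ⧸ n)
  refine ⟨Algebra.adjoin ℚ (T : Set F) ⧸ n, fi, inferInstance, hfin, ⟨(Ideal.Quotient.mk n).comp
    ?_⟩⟩
  have h1 : Algebra.adjoin ℤ (T : Set F) ≤ (Algebra.adjoin ℚ (T : Set F)).restrictScalars ℤ :=
    Algebra.adjoin_le fun x hx => Algebra.subset_adjoin hx
  exact
    { toFun := fun x => ⟨x, h1 x.2⟩
      map_one' := rfl
      map_mul' := fun _ _ => rfl
      map_zero' := rfl
      map_add' := fun _ _ => rfl }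

lemma adjoin_preimage_eq_top {F : Type*} [Field F] (T : Finset F) :
    ∃ T' : Finset (Algebra.adjoin ℤ (T : Set F)),
      Algebra.adjoin ℤ (T' : Set (Algebra.adjoin ℤ (T : Set F))) = ⊤ := by
  have hft : Algebra.FiniteType ℤ (Algebra.adjoin ℤ (T : Set F)) :=
    (Subalgebra.fg_iff_finiteType _).mp (Subalgebra.fg_adjoin_finset T)
  exact hft.out

lemma not_isUnit_natCast {F : Type*} [Field F] [CharZero F] (T : Finset F) :
    ∃ N : ℕ, N ≠ 0 ∧ ∀ p : ℕ, p.Prime → ¬ p ∣ N →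
      ¬ IsUnit ((p : ℕ) : Algebra.adjoin ℤ (T : Set F)) := by
  obtain ⟨K, _, _, _, ⟨φ⟩⟩ := exists_number_field_point T
  obtain ⟨T', hT'⟩ := adjoin_preimage_eq_top T
  exact not_isUnit_natCast_aux T' hT' φ

/-- All but finitely many primes are residue characteristics. -/
lemma residue_chars_cofinite {F : Type*} [Field F] [CharZero F] (T : Finset F) :
    ∃ N : ℕ, ∀ p : ℕ, p.Prime → N < p → ∃ m : Ideal (Algebra.adjoin ℤ (T : Set F)),
      m.IsMaximal ∧ ((p : ℕ) : Algebra.adjoin ℤ (T : Set F)) ∈ m ∧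
        Finite (Algebra.adjoin ℤ (T : Set F) ⧸ m) := by
  obtain ⟨N, hN0, hN⟩ := not_isUnit_natCast T
  refine ⟨N, fun p hp hlt => ?_⟩
  have hpN : ¬ p ∣ N := fun h => absurd (Nat.le_of_dvd (Nat.pos_of_ne_zero hN0) h) (by omega)
  obtain ⟨m, hm, hpm⟩ := exists_max_ideal_of_mem_nonunits (hN p hp hpN)
  refine ⟨m, hm, hpm, ?_⟩
  have hft : Algebra.FiniteType ℤ (Algebra.adjoin ℤ (T : Set F)) :=
    (Subalgebra.fg_iff_finiteType _).mp (Subalgebra.fg_adjoin_finset T)
  have hft0 : Algebra.FiniteType ℤ (Algebra.adjoin ℤ (T : Set F) ⧸ m) :=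
    Algebra.FiniteType.of_surjective (Ideal.Quotient.mkₐ ℤ m) (Ideal.Quotient.mkₐ_surjective ℤ m)
  let _ : Field (Algebra.adjoin ℤ (T : Set F) ⧸ m) := Ideal.Quotient.field m
  have hft1 : @Algebra.FiniteType ℤ (Algebra.adjoin ℤ (T : Set F) ⧸ m) _ _
      (Ring.toIntAlgebra _) := by
    convert! hft0
  exact (finite_field_of_finiteType _).1

end Pool.Agent.Lib.MP_8f66f0_al_Dennis
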