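import Mathlib
import Pool.Agent.Lib.MP_8f66f0_al_Dennis.ClassDefs

/-! Linear groups in characteristic zero. -/

set_option autoImplicit false
set_option linter.unusedSectionVars false

namespace Pool.Agent.Lib.MP_8f66f0_al_Dennis

section congruence

variable {R : Type*} [CommRing R] {m : ℕ}

lemma one_add_pow_eq {E : Type*} [Ring E] (X : E) (n : ℕ) :
    ∃ Y : E, (1 + X) ^ n = 1 + (n : E) * X + X * X * Y := by
  induction n with
  | zero => exact ⟨0, by simp⟩
  | succ n ih =>
    obtain ⟨Y, hY⟩ := ih
    have hc : (n : E) * X = X * n := Nat.cast_commute n X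
    refine ⟨(n : E) + Y * (1 + X), ?_⟩
    rw [pow_succ, hY]
    push_cast
    have e1 : (n : E) * X * X = X * X * n := by rw [hc, mul_assoc, hc, ← mul_assoc]
    simp only [mul_add, add_mul, mul_one, one_mul, mul_assoc]
    simp only [mul_assoc] at e1
    rw [e1]
    abel

/-- All entries of `M - 1` are in `I`. -/
def CongOne (I : Ideal R) (M : Matrix (Fin m) (Fin m) R) : Prop := ∀ i j, (M - 1) i j ∈ I

lemma CongOne.pow {I J : Ideal R} (hIJ : I ≤ J) {q : ℕ} (hq : (q : R) ∈ J)
    {M : Matrix (Fin m) (Fin m) R} (h : CongOne I M) : CongOne (I * J) (M ^ q) := by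
  intro i j
  obtain ⟨Y, hY⟩ := one_add_pow_eq (M - 1) q
  have e : M ^ q - 1 = (q : Matrix (Fin m) (Fin m) R) * (M - 1) + (M - 1) * (M - 1) * Y := by
    have : 1 + (M - 1) = M := by abel
    rw [this] at hY
    rw [hY]; abel
  rw [e, Matrix.add_apply]
  refine Ideal.add_mem _ ?_ ?_
  · rw [Matrix.mul_apply]
    refine Ideal.sum_mem _ fun k _ => ?_
    rw [mul_comm ((q : Matrix (Fin m) (Fin m) R) i k)]
    refine Ideal.mul_mem_mul (h k j) ?_
    rw [Matrix.natCast_apply]
    split_ifs
    · exact hq
    · rw [Nat.cast_zero]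
      exact J.zero_mem
  · rw [Matrix.mul_apply]
    refine Ideal.sum_mem _ fun k _ => ?_
    refine Ideal.mul_mem_right _ _ ?_
    rw [Matrix.mul_apply]
    refine Ideal.sum_mem _ fun l _ => ?_
    exact Ideal.mul_mem_mul (h i l) (hIJ (h l k))

lemma CongOne.pow_pow {J : Ideal R} {q : ℕ} (hq : (q : R) ∈ J)
    {M : Matrix (Fin m) (Fin m) R} (h : CongOne J M) (k : ℕ) :
    CongOne (J ^ (k + 1)) (M ^ (q ^ k)) := by
  induction k with
  | zero => simpa using h
  | succ k ih =>
    rw [pow_succ q, pow_mul, pow_succ J]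
    exact ih.pow (Ideal.pow_le_self (by omega)) hq

lemma map_eq_one_iff (I : Ideal R) (g : Matrix.GeneralLinearGroup (Fin m) R) :
    Matrix.GeneralLinearGroup.map (Ideal.Quotient.mk I) g = 1 ↔
      CongOne I (g : Matrix (Fin m) (Fin m) R) := by
  constructor
  · intro h i j
    rw [← Ideal.Quotient.eq_zero_iff_mem, Matrix.sub_apply, map_sub, sub_eq_zero]
    have h1 : (Matrix.GeneralLinearGroup.map (Ideal.Quotient.mk I) g) i j =
      (1 : Matrix.GeneralLinearGroup (Fin m) (R ⧸ I)) i j := by rw [h]
    rw [Matrix.GeneralLinearGroup.map_apply] at h1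
    rw [h1, Units.val_one, Matrix.one_apply, Matrix.one_apply]
    split_ifs <;> simp
  · intro h
    apply Units.ext
    ext i j
    have h1 := h i j
    rw [← Ideal.Quotient.eq_zero_iff_mem, Matrix.sub_apply, map_sub, sub_eq_zero] at h1
    change (Matrix.GeneralLinearGroup.map (Ideal.Quotient.mk I) g) i j = _
    rw [Matrix.GeneralLinearGroup.map_apply, h1, Units.val_one, Matrix.one_apply, Matrix.one_apply]
    split_ifs <;> simp

/-- Congruence subgroups show that linear groups over Noetherian domains are virtually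
residually finite-`q`. -/
lemma virtuallyResiduallyFiniteQ_of_linear [IsDomain R] [IsNoetherianRing R] {G : Type*} [Group G]
    (ρ : G →* Matrix.GeneralLinearGroup (Fin m) R) (hρ : Function.Injective ρ)
    {q : ℕ} (hq : q.Prime) (J : Ideal R) (hJ : J ≠ ⊤) (hqJ : (q : R) ∈ J) [Finite (R ⧸ J)] :
    VirtuallyResiduallyFiniteQ q G := by
  have : Fact q.Prime := ⟨hq⟩
  set f : G →* Matrix.GeneralLinearGroup (Fin m) (R ⧸ J) :=
    (Matrix.GeneralLinearGroup.map (Ideal.Quotient.mk J)).comp ρ with hf
  refine ⟨f.ker, inferInstance, fun h hh => ?_⟩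
  have hcong : ∀ x : f.ker, CongOne J (ρ x : Matrix (Fin m) (Fin m) R) := by
    intro x
    have h1 : Matrix.GeneralLinearGroup.map (Ideal.Quotient.mk J) (ρ (x : G)) = 1 := x.2
    rwa [map_eq_one_iff] at h1
  -- a nonzero entry
  have hne : ∃ i j, ((ρ h : Matrix (Fin m) (Fin m) R) - 1) i j ≠ 0 := by
    by_contra hcon
    push Not at hcon
    apply hh
    apply Subtype.ext
    apply hρ
    rw [Subgroup.coe_one, map_one]
    apply Units.ext
    ext i j
    have := hcon i j
    rw [Matrix.sub_apply, sub_eq_zero] at this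
    exact this
  obtain ⟨i, j, hij⟩ := hne
  have hkrull : ∃ k, ((ρ h : Matrix (Fin m) (Fin m) R) - 1) i j ∉ J ^ k := by
    by_contra hcon
    push Not at hcon
    have h1 : ((ρ h : Matrix (Fin m) (Fin m) R) - 1) i j ∈ ⨅ k, J ^ k := by
      rw [Ideal.mem_iInf]; exact hcon
    rw [Ideal.iInf_pow_eq_bot_of_isDomain J hJ] at h1
    exact hij h1
  obtain ⟨k, hk⟩ := hkrull
  have hfinq : Finite (R ⧸ J ^ k) :=
    Ideal.finite_quotient_pow (IsNoetherian.noetherian J) k
  set F : f.ker →* Matrix.GeneralLinearGroup (Fin m) (R ⧸ J ^ k) :=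
    ((Matrix.GeneralLinearGroup.map (Ideal.Quotient.mk (J ^ k))).comp ρ).comp f.ker.subtype with hF
  refine ⟨F.ker, inferInstance, ?_, ?_⟩
  · rw [Subgroup.index_ker]
    have hp : IsPGroup q F.range := by
      rintro ⟨_, x, rfl⟩
      refine ⟨k, ?_⟩
      apply Subtype.ext
      rw [Subgroup.coe_pow, Subgroup.coe_one]
      change (F x) ^ q ^ k = 1
      rw [← map_pow]
      change Matrix.GeneralLinearGroup.map (Ideal.Quotient.mk (J ^ k)) (ρ ((x ^ q ^ k : f.ker) : G))
        = 1
      rw [map_eq_one_iff]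
      have h2 := (hcong x).pow_pow hqJ k
      intro i j
      have h3 := h2 i j
      rw [Subgroup.coe_pow, map_pow, Units.val_pow_eq_pow_val]
      exact Ideal.pow_le_pow_right (by omega) h3
    exact IsPGroup.iff_card.mp hp
  · intro hmem
    rw [MonoidHom.mem_ker] at hmem
    change Matrix.GeneralLinearGroup.map (Ideal.Quotient.mk (J ^ k)) (ρ (h : G)) = 1 at hmem
    rw [map_eq_one_iff] at hmem
    exact hk (hmem i j)

end congruence

section field

variable {F : Type*} [Field F] {m : ℕ}

/-- A finitely generated linear group is linear over a finitely generated subring. -/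
lemma exists_fg_ring {G : Type*} [Group G] [Group.FG G]
    (ρ : G →* Matrix.GeneralLinearGroup (Fin m) F) (hρ : Function.Injective ρ) :
    ∃ (R : Subalgebra ℤ F) (ρ' : G →* Matrix.GeneralLinearGroup (Fin m) R),
      Algebra.FiniteType ℤ R ∧ Function.Injective ρ' := by
  classical
  obtain ⟨S, hS⟩ := (Group.fg_def.mp ‹Group.FG G›)
  set T : Finset F := (S ×ˢ (Finset.univ : Finset (Fin m × Fin m))).biUnion fun x =>
    {(ρ x.1 : Matrix (Fin m) (Fin m) F) x.2.1 x.2.2,
      ((ρ x.1)⁻¹ : Matrix.GeneralLinearGroup (Fin m) F) x.2.1 x.2.2} with hT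
  set R : Subalgebra ℤ F := Algebra.adjoin ℤ (T : Set F) with hR
  have hfg : R.FG := Subalgebra.fg_adjoin_finset T
  have hft : Algebra.FiniteType ℤ R := R.fg_iff_finiteType.mp hfg
  set ι : R →+* F := algebraMap R F with hι
  have hιinj : Function.Injective ι := Subtype.val_injective
  set μ : Matrix.GeneralLinearGroup (Fin m) R →* Matrix.GeneralLinearGroup (Fin m) F :=
    Matrix.GeneralLinearGroup.map ι with hμ
  have hμinj : Function.Injective μ := by
    intro a b hab
    apply Units.ext
    ext i j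
    have h1 := congrArg (fun u : Matrix.GeneralLinearGroup (Fin m) F =>
      (u : Matrix (Fin m) (Fin m) F) i j) hab
    exact h1
  have hrange : ∀ g : G, ρ g ∈ μ.range := by
    have hle : Subgroup.closure (S : Set G) ≤ μ.range.comap ρ := by
      rw [Subgroup.closure_le]
      intro s hs
      have hmem : ∀ i j, (ρ s : Matrix (Fin m) (Fin m) F) i j ∈ R := by
        intro i j
        apply Algebra.subset_adjoin
        rw [hT, Finset.mem_coe, Finset.mem_biUnion]
        exact ⟨(s, (i, j)), Finset.mem_product.mpr ⟨hs, Finset.mem_univ _⟩, by simp⟩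
      have hmem' : ∀ i j, ((ρ s)⁻¹ : Matrix.GeneralLinearGroup (Fin m) F) i j ∈ R := by
        intro i j
        apply Algebra.subset_adjoin
        rw [hT, Finset.mem_coe, Finset.mem_biUnion]
        exact ⟨(s, (i, j)), Finset.mem_product.mpr ⟨hs, Finset.mem_univ _⟩, by simp⟩
      set M : Matrix (Fin m) (Fin m) R := Matrix.of fun i j => ⟨_, hmem i j⟩ with hM
      set M' : Matrix (Fin m) (Fin m) R := Matrix.of fun i j => ⟨_, hmem' i j⟩ with hM'
      have hMm : M.map ι = (ρ s : Matrix (Fin m) (Fin m) F) := rfl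
      have hMm' : M'.map ι = ((ρ s)⁻¹ : Matrix.GeneralLinearGroup (Fin m) F) := rfl
      have h1 : M * M' = 1 := by
        apply Matrix.map_injective hιinj
        change (M * M').map ι = (1 : Matrix (Fin m) (Fin m) R).map ι
        rw [Matrix.map_mul, hMm, hMm', Matrix.map_one _ (map_zero _) (map_one _), ← Units.val_mul,
          mul_inv_cancel, Units.val_one]
      have h2 : M' * M = 1 := by
        apply Matrix.map_injective hιinj
        change (M' * M).map ι = (1 : Matrix (Fin m) (Fin m) R).map ι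
        rw [Matrix.map_mul, hMm, hMm', Matrix.map_one _ (map_zero _) (map_one _), ← Units.val_mul,
          inv_mul_cancel, Units.val_one]
      refine ⟨⟨M, M', h1, h2⟩, ?_⟩
      apply Units.ext
      rfl
    intro g
    have : g ∈ Subgroup.closure (S : Set G) := by rw [hS]; trivial
    exact hle this
  set ρ' : G →* Matrix.GeneralLinearGroup (Fin m) R :=
    ((MonoidHom.ofInjective hμinj).symm.toMonoidHom).comp (ρ.codRestrict μ.range hrange) with hρ'
  have hρ'inj : Function.Injective ρ' := by
    intro a b hab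
    apply hρ
    have h1 := (MonoidHom.ofInjective hμinj).symm.injective hab
    exact congrArg Subtype.val h1
  exact ⟨R, ρ', hft, hρ'inj⟩

end field

end Pool.Agent.Lib.MP_8f66f0_al_Dennis
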