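import Mathlib
import Pool.Agent.Lib.MP_8f66f0_al_Dennis.ClassDefs

set_option autoImplicit false
set_option linter.unusedSectionVars false

namespace Pool.Agent.Lib.MP_8f66f0_al_Dennis

variable {G : Type*} [Group G]

lemma ResiduallyFiniteQ.mono {q : ℕ} {H K : Subgroup G} (hK : K ≤ H)
    (hH : ResiduallyFiniteQ q H) [Fact q.Prime] : ResiduallyFiniteQ q K := by
  intro g hg
  obtain ⟨N, hN, ⟨k, hk⟩, hgN⟩ := hH (Subgroup.inclusion hK g) (by
    intro h
    apply hg
    have := congrArg (Subtype.val) h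
    exact Subtype.ext this)
  refine ⟨N.comap (Subgroup.inclusion hK), hN.comap _, ?_, fun h => hgN h⟩
  have h1 : (N.comap (Subgroup.inclusion hK)).index ∣ N.index := by
    rw [Subgroup.index_comap]
    exact Subgroup.relIndex_dvd_index_of_normal _ _
  rw [hk] at h1
  obtain ⟨m, _, hm⟩ := (Nat.dvd_prime_pow (Fact.out : q.Prime)).mp h1
  exact ⟨m, hm⟩

lemma VirtuallyResiduallyFiniteQ.normal {q : ℕ} [Fact q.Prime]
    (h : VirtuallyResiduallyFiniteQ q G) :
    ∃ H : Subgroup G, H.Normal ∧ H.FiniteIndex ∧ ResiduallyFiniteQ q H := by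
  obtain ⟨H, hH, hr⟩ := h
  exact ⟨H.normalCore, inferInstance, inferInstance, hr.mono H.normalCore_le⟩

/-- Unique `p`-th roots for all large `p`. -/
lemma VirtuallyResiduallyFiniteQ.roots {q : ℕ} [hq : Fact q.Prime]
    (h : VirtuallyResiduallyFiniteQ q G) :
    ∃ N : ℕ, ∀ p : ℕ, p.Prime → N < p → ∀ x y : G, x ^ p = y ^ p → x = y := by
  obtain ⟨H, hHn, hHf, hr⟩ := h.normal
  have he : H.index ≠ 0 := hHf.index_ne_zero
  refine ⟨H.index + q, fun p hp hNp x y hxy => ?_⟩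
  have hpe : Nat.Coprime p H.index := by
    rw [Nat.Prime.coprime_iff_not_dvd hp]
    intro hd
    have := Nat.le_of_dvd (Nat.pos_of_ne_zero he) hd
    omega
  have hpq : Nat.Coprime q p := by
    rw [Nat.coprime_primes hq.out hp]
    omega
  have hxe : x ^ H.index = y ^ H.index := by
    by_contra hne
    have hx : x ^ H.index ∈ H := H.pow_index_mem x
    have hy : y ^ H.index ∈ H := H.pow_index_mem y
    set a : H := ⟨x ^ H.index, hx⟩ with ha
    set b : H := ⟨y ^ H.index, hy⟩ with hb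
    have hab : a ^ p = b ^ p := by
      apply Subtype.ext
      rw [ha, hb]
      push_cast
      rw [← pow_mul, ← pow_mul, mul_comm, pow_mul, pow_mul, hxy]
    obtain ⟨N, hN, ⟨k, hk⟩, hgN⟩ := hr (a * b⁻¹) (by
      intro h1
      have h2 : a = b := mul_inv_eq_one.mp h1
      exact hne (congrArg Subtype.val h2))
    apply hgN
    have hcop : (Nat.card (H ⧸ N)).Coprime p := by
      have : Nat.card (H ⧸ N) = q ^ k := by
        rw [← hk]; rfl
      rw [this]
      exact hpq.pow_left k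
    have hinj := (powCoprime hcop).injective
    have h3 : (QuotientGroup.mk' N a) = (QuotientGroup.mk' N b) := by
      apply hinj
      change (QuotientGroup.mk' N a) ^ p = (QuotientGroup.mk' N b) ^ p
      rw [← map_pow, ← map_pow, hab]
    rw [← QuotientGroup.eq_one_iff]
    have h4 : QuotientGroup.mk' N (a * b⁻¹) = 1 := by
      rw [map_mul, h3, map_inv, mul_inv_cancel]
    exact h4
  have hb : (1 : ℤ) = p * Nat.gcdA p H.index + H.index * Nat.gcdB p H.index := by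
    have := Nat.gcd_eq_gcd_ab p H.index
    rw [hpe.gcd_eq_one] at this
    exact_mod_cast this
  have key : ∀ z : G, z = (z ^ p) ^ (Nat.gcdA p H.index) * (z ^ H.index) ^ (Nat.gcdB p H.index) := by
    intro z
    conv_lhs => rw [← zpow_one z, hb, zpow_add, zpow_mul, zpow_mul, zpow_natCast, zpow_natCast]
  rw [key x, key y, hxy, hxe]

lemma conj_iter {g v : G} {q m : ℕ} (hgv : g * v ^ q * g⁻¹ = v ^ m) (j : ℕ) :
    g ^ j * v ^ (q ^ j) * (g ^ j)⁻¹ = v ^ (m ^ j) := by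
  induction j with
  | zero => simp
  | succ j ih =>
    have e1 : g ^ (j + 1) * v ^ (q ^ (j + 1)) * (g ^ (j + 1))⁻¹ =
        g ^ j * ((g * v ^ q * g⁻¹) ^ (q ^ j)) * (g ^ j)⁻¹ := by
      rw [conj_pow, ← pow_mul, pow_succ g j, pow_succ' q j]
      group
    rw [e1, hgv, ← pow_mul, mul_comm m, pow_mul, ← conj_pow, ih, ← pow_mul, pow_succ]

/-- In a torsion-free virtually residually finite-`q` group `u ^ q` is not conjugate to
`u ^ m` for `m` prime to `q`. -/
lemma VirtuallyResiduallyFiniteQ.not_conj {q : ℕ} [hq : Fact q.Prime]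
    (h : VirtuallyResiduallyFiniteQ q G) (htf : ∀ g : G, ∀ n : ℕ, 0 < n → g ^ n = 1 → g = 1)
    {u : G} (hu : u ≠ 1) {m : ℕ} (hm : q.Coprime m) : ¬ IsConj (u ^ q) (u ^ m) := by
  obtain ⟨H, hHn, hHf, hr⟩ := h.normal
  have he : 0 < H.index := Nat.pos_of_ne_zero hHf.index_ne_zero
  intro hconj
  obtain ⟨g, hg⟩ := isConj_iff.mp hconj
  set v := u ^ H.index with hv
  have hvH : v ∈ H := H.pow_index_mem u
  have hv1 : v ≠ 1 := fun h1 => hu (htf u _ he h1)
  have hgv : g * v ^ q * g⁻¹ = v ^ m := by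
    rw [hv, ← pow_mul, mul_comm, pow_mul, ← conj_pow, hg, ← pow_mul, ← pow_mul, mul_comm]
  have hiter := conj_iter hgv
  obtain ⟨N, hN, ⟨k, hk⟩, hgN⟩ := hr ⟨v, hvH⟩ (by
    intro h1
    exact hv1 (congrArg Subtype.val h1))
  apply hgN
  have : N.FiniteIndex := ⟨by rw [hk]; exact pow_ne_zero _ hq.out.ne_zero⟩
  set w : H := ⟨v, hvH⟩ with hw
  set w' : H := ⟨g ^ k * v * (g ^ k)⁻¹, hHn.conj_mem v hvH _⟩ with hw'
  have h1 : w ^ (q ^ k) ∈ N := by
    have := N.pow_index_mem w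
    rwa [hk] at this
  have h2 : w ^ (m ^ k) ∈ N := by
    have h3 : w ^ (m ^ k) = w' ^ (q ^ k) := by
      apply Subtype.ext
      rw [hw, hw']
      push_cast
      rw [conj_pow, hiter]
    have := N.pow_index_mem w'
    rw [hk] at this
    rwa [h3]
  have hcop : Nat.Coprime (q ^ k) (m ^ k) := hm.pow k k
  have hb : (1 : ℤ) = (q ^ k : ℕ) * Nat.gcdA (q ^ k) (m ^ k) + (m ^ k : ℕ) * Nat.gcdB (q ^ k) (m ^ k) := by
    have := Nat.gcd_eq_gcd_ab (q ^ k) (m ^ k)
    rw [hcop.gcd_eq_one] at this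
    exact_mod_cast this
  have key : w = (w ^ (q ^ k)) ^ (Nat.gcdA (q ^ k) (m ^ k)) *
      (w ^ (m ^ k)) ^ (Nat.gcdB (q ^ k) (m ^ k)) := by
    conv_lhs => rw [← zpow_one w, hb, zpow_add, zpow_mul, zpow_mul, zpow_natCast, zpow_natCast]
  rw [key]
  exact N.mul_mem (N.zpow_mem h1 _) (N.zpow_mem h2 _)

lemma bad_subsingleton (htf : ∀ g : G, ∀ n : ℕ, 0 < n → g ^ n = 1 → g = 1) (u v : G) :
    {p : ℕ | p.Prime ∧ VirtuallyResiduallyFiniteQ p G ∧ v ≠ 1 ∧ IsConj u (v ^ p)}.Subsingleton := by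
  rintro p ⟨hp, hpG, hv, hconj⟩ p' ⟨hp', _, _, hconj'⟩
  by_contra hne
  have : Fact p.Prime := ⟨hp⟩
  have hcop : p.Coprime p' := (Nat.coprime_primes hp hp').mpr hne
  exact hpG.not_conj htf hv hcop (hconj.symm.trans hconj')

end Pool.Agent.Lib.MP_8f66f0_al_Dennis
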