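import Mathlib
import Pool.Agent.Lib.MP_8f66f0_al_Dennis.CharPos
import Pool.Agent.Lib.MP_8f66f0_al_Dennis.Cofinite
import Pool.Agent.Lib.MP_8f66f0_al_Dennis.Linear
import Pool.Agent.Lib.MP_8f66f0_al_Dennis.Roots

/-! Power separated groups: the cofinite versions. -/

set_option autoImplicit false
set_option linter.unusedSectionVars false

namespace Pool.Agent.Lib.MP_8f66f0_al_Dennis

lemma PowerSeparated.of_virtuallyResiduallyFinite {G : Type*} [Group G]
    (htf : ∀ g : G, ∀ n : ℕ, 0 < n → g ^ n = 1 → g = 1)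
    (hres : {q : ℕ | q.Prime ∧ ¬ VirtuallyResiduallyFiniteQ q G}.Finite) :
    PowerSeparated G := by
  have hinf : {q : ℕ | q.Prime ∧ VirtuallyResiduallyFiniteQ q G}.Infinite := by
    intro hfin
    apply Nat.infinite_setOfPred_prime
    refine (hres.union hfin).subset fun q hq => ?_
    by_cases h : VirtuallyResiduallyFiniteQ q G
    · exact Or.inr ⟨hq, h⟩
    · exact Or.inl ⟨hq, h⟩
  obtain ⟨q0, hq0, hq0r⟩ := hinf.nonempty
  have : Fact q0.Prime := ⟨hq0⟩
  refine ⟨hq0r.roots, fun u v hv => ?_⟩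
  refine (hres.union (bad_subsingleton htf u v).finite).subset ?_
  rintro p ⟨hp, hconj⟩
  by_cases h : VirtuallyResiduallyFiniteQ p G
  · exact Or.inr ⟨hp, h, hv, hconj⟩
  · exact Or.inl ⟨hp, h⟩

/-- A finitely generated linear group is linear over a finitely generated subring, in the form
needed for `residue_chars_cofinite`. -/
lemma exists_fg_ring' {F : Type*} [Field F] {m : ℕ} {G : Type*} [Group G] [Group.FG G]
    (ρ : G →* Matrix.GeneralLinearGroup (Fin m) F) (hρ : Function.Injective ρ) :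
    ∃ (T : Finset F) (ρ' : G →* Matrix.GeneralLinearGroup (Fin m) (Algebra.adjoin ℤ (T : Set F))),
      Function.Injective ρ' := by
  obtain ⟨R, ρ', hft, hinj⟩ := exists_fg_ring ρ hρ
  obtain ⟨T, hT⟩ := (R.fg_iff_finiteType.mpr hft)
  subst hT
  exact ⟨T, ρ', hinj⟩

lemma PowerSeparated.of_linear {F : Type*} [Field F] {m : ℕ} {G : Type*} [Group G] [Group.FG G]
    (htf : ∀ g : G, ∀ n : ℕ, 0 < n → g ^ n = 1 → g = 1)
    (ρ : G →* Matrix.GeneralLinearGroup (Fin m) F) (hρ : Function.Injective ρ) :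
    PowerSeparated G := by
  obtain ⟨T, ρ', hρ'inj⟩ := exists_fg_ring' ρ hρ
  have hft : Algebra.FiniteType ℤ (Algebra.adjoin ℤ (T : Set F)) :=
    (Subalgebra.fg_iff_finiteType _).mp (Subalgebra.fg_adjoin_finset T)
  have hnoeth : IsNoetherianRing (Algebra.adjoin ℤ (T : Set F)) :=
    Algebra.FiniteType.isNoetherianRing ℤ _
  obtain ⟨p, hp⟩ := CharP.exists F
  rcases CharP.char_is_prime_or_zero F p with hprime | hzero
  · -- positive characteristic
    have : Fact p.Prime := ⟨hprime⟩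
    obtain ⟨J, hJ⟩ := Ideal.exists_maximal (Algebra.adjoin ℤ (T : Set F))
    have hft0 : Algebra.FiniteType ℤ (Algebra.adjoin ℤ (T : Set F) ⧸ J) :=
      Algebra.FiniteType.of_surjective (Ideal.Quotient.mkₐ ℤ J) (Ideal.Quotient.mkₐ_surjective ℤ J)
    let _ : Field (Algebra.adjoin ℤ (T : Set F) ⧸ J) := Ideal.Quotient.field J
    have hft1 : @Algebra.FiniteType ℤ (Algebra.adjoin ℤ (T : Set F) ⧸ J) _ _
        (Ring.toIntAlgebra _) := by
      convert! hft0
    obtain ⟨hf, q, hq, hq0⟩ := finite_field_of_finiteType (Algebra.adjoin ℤ (T : Set F) ⧸ J)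
    have hqJ : ((q : ℕ) : Algebra.adjoin ℤ (T : Set F)) ∈ J := by
      rw [← Ideal.Quotient.eq_zero_iff_mem, map_natCast]
      exact hq0
    have hres := virtuallyResiduallyFiniteQ_of_linear ρ' hρ'inj hq J hJ.ne_top hqJ
    have : Fact q.Prime := ⟨hq⟩
    refine ⟨hres.roots, fun u v hv => ?_⟩
    refine Set.Subsingleton.finite ?_
    rintro a ⟨ha, hua⟩ b ⟨hb, hub⟩
    by_contra hne
    obtain ⟨g, hg⟩ := isConj_iff.mp (hua.symm.trans hub)
    obtain ⟨N, hN, hv1⟩ := linear_torsion (p := p) (ρ v) (ρ g) (Nat.Prime.pos ha)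
      (Nat.Prime.pos hb) hne (by
        rw [← map_pow, ← map_pow, ← map_inv, ← map_mul, ← map_mul, hg])
    exact hv (htf v N hN (hρ (by rw [map_pow, hv1, map_one])))
  · -- characteristic zero
    subst hzero
    have : CharZero F := CharP.charP_to_charZero F
    obtain ⟨N, hN⟩ := residue_chars_cofinite T
    refine PowerSeparated.of_virtuallyResiduallyFinite htf ?_
    refine (Set.finite_Iic N).subset ?_
    rintro q ⟨hq, hqn⟩
    by_contra hlt
    obtain ⟨J, hJ, hqJ, hfin⟩ := hN q hq (not_le.mp hlt)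
    exact hqn (virtuallyResiduallyFiniteQ_of_linear ρ' hρ'inj hq J hJ.ne_top hqJ)

lemma Admissible.separated.{v, u} {Γ : Type u} [Group Γ] (h : Admissible.{v} Γ) (H : Subgroup Γ)
    (hH : H.FG) : PowerSeparated H := by
  have htfH : ∀ g : H, ∀ n : ℕ, 0 < n → g ^ n = 1 → g = 1 := by
    intro g n hn hg
    apply Subtype.ext
    exact h.torsionFree g n hn (by
      have := congrArg Subtype.val hg
      simpa using this)
  rcases h.locally_good H hH with ⟨F, hF, m, ρ, hρ⟩ | h | h
  · have : Group.FG H := (Group.fg_iff_subgroup_fg H).mpr hH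
    exact PowerSeparated.of_linear htfH ρ hρ
  · exact PowerSeparated.of_virtuallyResiduallyFinite htfH h
  · exact h

end Pool.Agent.Lib.MP_8f66f0_al_Dennis
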