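import Mathlib
import Pool.Agent.Lib.MP_8f66f0_al_Dennis.ClassDefs
import Pool.Agent.Lib.MP_8f66f0_al_Dennis.Descent

/-! Vanishing of the Dennis trace for almost all primes. -/

set_option autoImplicit false
set_option linter.unusedSectionVars false

namespace Pool.Agent.Lib.MP_8f66f0_al_Dennis

variable {Γ : Type*} [Group Γ]

theorem dennis_cofinite (hsep : ∀ H : Subgroup Γ, H.FG → PowerSeparated H) {n : ℕ}
    {A B : Matrix (Fin n) (Fin n) (MonoidAlgebra ℤ Γ)} (hAB : A * B = 1) (hBA : B * A = 1) :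
    ∃ N : ℕ, ∀ p : ℕ, p.Prime → N < p → ∀ c : Γ, c ≠ 1 → ∀ δ : Γ → Γ → ZMod p,
      IsClassCocycle c δ → dennisPairing A B c δ = 0 := by
  classical
  -- the finitely generated subgroup
  set W : Finset Γ := (Finset.univ : Finset (Fin n × Fin n)).biUnion fun x =>
    (A x.1 x.2).coeff.support ∪ (B x.1 x.2).coeff.support with hW
  set H : Subgroup Γ := Subgroup.closure (W : Set Γ) with hH
  have hHfg : H.FG := ⟨W, rfl⟩
  have hA : ∀ i j, ∀ g ∈ (A i j).coeff.support, g ∈ H := by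
    intro i j g hg
    apply Subgroup.subset_closure
    rw [hW]
    exact Finset.mem_coe.mpr (Finset.mem_biUnion.mpr ⟨(i, j), Finset.mem_univ _,
      Finset.mem_union_left _ hg⟩)
  have hB : ∀ i j, ∀ g ∈ (B i j).coeff.support, g ∈ H := by
    intro i j g hg
    apply Subgroup.subset_closure
    rw [hW]
    exact Finset.mem_coe.mpr (Finset.mem_biUnion.mpr ⟨(i, j), Finset.mem_univ _,
      Finset.mem_union_right _ hg⟩)
  -- products
  set F0 : Finset Γ := (Finset.univ : Finset (Fin n × Fin n)).biUnion fun x =>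
    ((B x.1 x.2).coeff.support ×ˢ (A x.2 x.1).coeff.support).image fun y => y.1 * y.2 with hF0
  set F : Finset H := F0.preimage Subtype.val Subtype.val_injective.injOn with hFdef
  have hF : ∀ i j, ∀ g ∈ (B i j).coeff.support, ∀ h ∈ (A j i).coeff.support,
      ∃ u ∈ F, (u : Γ) = g * h := by
    intro i j g hg h hh
    refine ⟨⟨g * h, H.mul_mem (hB i j g hg) (hA j i h hh)⟩, ?_, rfl⟩
    rw [hFdef, Finset.mem_preimage, hF0, Finset.mem_biUnion]
    refine ⟨(i, j), Finset.mem_univ _, Finset.mem_image.mpr ⟨(g, h), ?_, rfl⟩⟩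
    exact Finset.mem_product.mpr ⟨hg, hh⟩
  obtain ⟨N0, hN0⟩ := (hsep H hHfg).roots
  set Bad : Set ℕ := ⋃ x ∈ (F ×ˢ F : Finset (H × H)),
    {p : ℕ | p.Prime ∧ x.2 ≠ 1 ∧ IsConj x.1 (x.2 ^ p)} with hBad
  have hBadfin : Bad.Finite := by
    rw [hBad]
    refine Set.Finite.biUnion (Finset.finite_toSet _) fun x _ => ?_
    by_cases hx : x.2 = 1
    · refine Set.Finite.subset Set.finite_empty ?_
      rintro p ⟨_, h, _⟩
      exact absurd hx h
    · refine ((hsep H hHfg).conj x.1 x.2 hx).subset ?_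
      rintro p ⟨hp, _, h⟩
      exact ⟨hp, h⟩
  obtain ⟨N1, hN1⟩ := hBadfin.bddAbove
  refine ⟨max N0 N1, fun p hp hlt c hc δ hδ => ?_⟩
  have : Fact p.Prime := ⟨hp⟩
  refine vanish_mod_subgroup H hAB hBA hA hB hF hc
    (hN0 p hp (lt_of_le_of_lt (le_max_left _ _) hlt)) ?_ hδ
  intro u hu v hv hv1 hconj
  have hpB : p ∈ Bad := Set.mem_biUnion (x := (u, v)) (Finset.mem_coe.mpr
    (Finset.mem_product.mpr ⟨hu, hv⟩)) ⟨hp, hv1, hconj⟩
  have h1 := hN1 hpB
  have h2 : N1 < p := lt_of_le_of_lt (le_max_right _ _) hlt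
  omega

/-- An integer valued pairing reduces modulo `p`. -/
lemma dennisPairing_cast {n : ℕ} (A B : Matrix (Fin n) (Fin n) (MonoidAlgebra ℤ Γ)) (c : Γ)
    (δ : Γ → Γ → ℤ) (p : ℕ) :
    ((dennisPairing A B c δ : ℤ) : ZMod p) =
      dennisPairing A B c (fun g x => (δ g x : ZMod p)) := by
  classical
  unfold dennisPairing
  rw [Int.cast_sum]
  refine Finset.sum_congr rfl fun i _ => ?_
  rw [Int.cast_sum]
  refine Finset.sum_congr rfl fun j _ => ?_
  rw [Finsupp.sum, Int.cast_sum]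
  refine Finset.sum_congr rfl fun g _ => ?_
  rw [Finsupp.sum, Int.cast_sum]
  refine Finset.sum_congr rfl fun h _ => ?_
  beta_reduce
  by_cases hgh : IsConj c (g * h)
  · rw [if_pos hgh, if_pos hgh, smul_eq_mul, zsmul_eq_mul, Int.cast_mul]
  · rw [if_neg hgh, if_neg hgh, Int.cast_zero]

theorem dennis_int (hsep : ∀ H : Subgroup Γ, H.FG → PowerSeparated H) {n : ℕ}
    {A B : Matrix (Fin n) (Fin n) (MonoidAlgebra ℤ Γ)} (hAB : A * B = 1) (hBA : B * A = 1)
    (c : Γ) (hc : c ≠ 1) (δ : Γ → Γ → ℤ) (hδ : IsClassCocycle c δ) :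
    dennisPairing A B c δ = 0 := by
  obtain ⟨N, hN⟩ := dennis_cofinite hsep hAB hBA
  by_contra hne
  obtain ⟨p, hpge, hp⟩ := Nat.exists_infinite_primes (max N (dennisPairing A B c δ).natAbs + 1)
  have h1 := hN p hp (by
    have := le_max_left N (dennisPairing A B c δ).natAbs
    omega) c hc (fun g x => (δ g x : ZMod p)) (by
      intro g h x hx
      beta_reduce
      rw [hδ g h x hx]
      push_cast
      rfl)
  rw [← dennisPairing_cast, ZMod.intCast_zmod_eq_zero_iff_dvd] at h1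
  have h2 := Nat.le_of_dvd (Int.natAbs_pos.mpr hne) (Int.natCast_dvd.mp h1)
  have := le_max_right N (dennisPairing A B c δ).natAbs
  omega

end Pool.Agent.Lib.MP_8f66f0_al_Dennis
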