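import Mathlib

/-! Derivations of fields of characteristic zero detect transcendental elements. -/

set_option autoImplicit false

namespace Pool.Agent.Lib.MP_8f66f0_al_Dennis

open Polynomial

universe u

/-- Dual numbers, with the ring structure only. -/
def DN (E : Type u) [CommRing E] : Type u := DualNumber E

namespace DN

variable {E : Type u} [CommRing E]

noncomputable instance : CommRing (DN E) :=
  inferInstanceAs (CommRing (DualNumber E))

/-- first component -/
def fst (x : DN E) : E := TrivSqZeroExt.fst (x : DualNumber E)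

/-- second component -/
def snd (x : DN E) : E := TrivSqZeroExt.snd (x : DualNumber E)

/-- constructor -/
def mk (a b : E) : DN E := ((a, b) : DualNumber E)

lemma fst_mk (a b : E) : (mk a b).fst = a := rfl
lemma snd_mk (a b : E) : (mk a b).snd = b := rfl

lemma ext {x y : DN E} (h1 : x.fst = y.fst) (h2 : x.snd = y.snd) : x = y :=
  TrivSqZeroExt.ext h1 h2

lemma fst_zero : (0 : DN E).fst = 0 := rfl
lemma snd_zero : (0 : DN E).snd = 0 := rfl
lemma fst_one : (1 : DN E).fst = 1 := rfl
lemma snd_one : (1 : DN E).snd = 0 := rfl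
lemma fst_add (x y : DN E) : (x + y).fst = x.fst + y.fst := rfl
lemma snd_add (x y : DN E) : (x + y).snd = x.snd + y.snd := rfl
lemma fst_mul (x y : DN E) : (x * y).fst = x.fst * y.fst := rfl
lemma snd_mul (x y : DN E) : (x * y).snd = x.fst * y.snd + y.fst * x.snd := by
  have h : (x * y).snd = x.fst * y.snd + x.snd * y.fst := rfl
  rw [h, mul_comm x.snd]

/-- first component as a ring homomorphism -/
def fstR : DN E →+* E where
  toFun := fst
  map_zero' := rfl
  map_one' := rfl
  map_add' _ _ := rfl
  map_mul' _ _ := rfl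

/-- the inclusion of `E` -/
def inlR : E →+* DN E where
  toFun a := mk a 0
  map_zero' := rfl
  map_one' := rfl
  map_add' a b := ext rfl (by rw [snd_add, snd_mk, snd_mk, snd_mk, add_zero])
  map_mul' a b := ext rfl (by rw [snd_mul, snd_mk, snd_mk, snd_mk, mul_zero, mul_zero, add_zero])

lemma isUnit_of_fst {E : Type u} [Field E] {x : DN E} (h : x.fst ≠ 0) : IsUnit x := by
  refine IsUnit.of_mul_eq_one (mk (x.fst)⁻¹ (-(x.snd) * (x.fst)⁻¹ * (x.fst)⁻¹)) (ext ?_ ?_)
  · rw [fst_mul, fst_mk, fst_one, mul_inv_cancel₀ h]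
  · rw [snd_mul, fst_mk, snd_mk, snd_one]
    field_simp
    ring

end DN

lemma formallySmooth_of_charZero (K E : Type*) [Field K] [Field E] [Algebra K E] [CharZero K] :
    Algebra.FormallySmooth K E := by
  obtain ⟨s, hs⟩ := exists_isTranscendenceBasis K E
  have h1 : Algebra.IsAlgebraic (IntermediateField.adjoin K (Set.range ((↑) : s → E))) E :=
    hs.isAlgebraic_field
  have h2 : Algebra.IsSeparable (IntermediateField.adjoin K (Set.range ((↑) : s → E))) E :=
    inferInstance
  exact Algebra.FormallySmooth.of_algebraicIndependent_of_isSeparable hs.1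

lemma exists_derivation {E : Type u} [Field E] [CharZero E] {z : E} (hz : Transcendental ℚ z) :
    ∃ d : E →+ E, (∀ x y, d (x * y) = x * d y + y * d x) ∧ d z ≠ 0 := by
  have hinj : Function.Injective (aeval (R := ℚ) z : ℚ[X] →+* E) :=
    transcendental_iff_injective.mp hz
  let K := FractionRing ℚ[X]
  let α : K →+* E := IsFractionRing.lift hinj
  let g : ℚ[X] →+* DN E := eval₂RingHom (DN.inlR.comp (algebraMap ℚ E)) (DN.mk z 1)
  have hfst : ∀ f, (g f).fst = aeval z f := by
    intro f
    have : (DN.fstR.comp g) = (aeval (R := ℚ) z : ℚ[X] →+* E) := by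
      apply Polynomial.ringHom_ext
      · intro a
        have h1 : g (C a) = DN.inlR (algebraMap ℚ E a) := by simp [g]
        rw [RingHom.comp_apply, h1]
        change algebraMap ℚ E a = aeval z (C a)
        rw [aeval_C]
      · have h1 : g X = DN.mk z 1 := by simp [g]
        rw [RingHom.comp_apply, h1]
        change z = aeval z X
        rw [aeval_X]
    exact RingHom.congr_fun this f
  have hunit : ∀ f : nonZeroDivisors ℚ[X], IsUnit (g f) := by
    intro f
    have h0 : (f : ℚ[X]) ≠ 0 := nonZeroDivisors.ne_zero f.2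
    have h1 : aeval z (f : ℚ[X]) ≠ 0 := fun h => h0 (hinj (by
      rw [map_zero]; exact h))
    exact DN.isUnit_of_fst (by rw [hfst]; exact h1)
  let β : K →+* DN E := IsLocalization.lift (M := nonZeroDivisors ℚ[X]) hunit
  have hβ : ∀ f, β (algebraMap ℚ[X] K f) = g f := fun f => IsLocalization.lift_eq hunit f
  have hα : ∀ f, α (algebraMap ℚ[X] K f) = aeval z f := fun f =>
    IsFractionRing.lift_algebraMap hinj f
  have hcomp : DN.fstR.comp β = α := by
    apply IsLocalization.ringHom_ext (nonZeroDivisors ℚ[X])
    apply RingHom.ext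
    intro f
    rw [RingHom.comp_apply, RingHom.comp_apply, RingHom.comp_apply, hβ, hα]
    exact hfst f
  let _ : Algebra K E := α.toAlgebra
  let _ : Algebra K (DN E) := β.toAlgebra
  have hsm : Algebra.FormallySmooth K E := formallySmooth_of_charZero K E
  let fstA : DN E →ₐ[K] E :=
    { DN.fstR with
      commutes' := fun x => RingHom.congr_fun hcomp x }
  have hsurj : Function.Surjective fstA := fun x => ⟨DN.mk x 0, rfl⟩
  have hnil : IsNilpotent (RingHom.ker (fstA : DN E →+* E)) := by
    refine ⟨2, ?_⟩
    rw [pow_two, Ideal.zero_eq_bot, eq_bot_iff, Ideal.mul_le]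
    intro a ha b hb
    have ha' : a.fst = 0 := ha
    have hb' : b.fst = 0 := hb
    rw [Ideal.mem_bot]
    apply DN.ext
    · rw [DN.fst_mul, ha', zero_mul, DN.fst_zero]
    · rw [DN.snd_mul, ha', hb', zero_mul, zero_mul, add_zero, DN.snd_zero]
  let s : E →ₐ[K] DN E := Algebra.FormallySmooth.liftOfSurjective (AlgHom.id K E) fstA hsurj hnil
  have hs : ∀ x, (s x).fst = x := fun x =>
    Algebra.FormallySmooth.liftOfSurjective_apply (AlgHom.id K E) fstA hsurj hnil x
  refine ⟨{ toFun := fun x => (s x).snd
            map_zero' := by rw [map_zero]; rfl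
            map_add' := fun x y => by rw [map_add]; rfl }, ?_, ?_⟩
  · intro x y
    change (s (x * y)).snd = x * (s y).snd + y * (s x).snd
    rw [map_mul, DN.snd_mul, hs, hs]
  · change (s z).snd ≠ 0
    have h1 : z = algebraMap K E (algebraMap ℚ[X] K X) := by
      change z = α (algebraMap ℚ[X] K X)
      rw [hα, aeval_X]
    have h2 : s z = g X := by
      conv_lhs => rw [h1]
      rw [s.commutes]
      exact hβ X
    have h3 : g X = DN.mk z 1 := by simp [g]
    rw [h2, h3, DN.snd_mk]
    exact one_ne_zero

end Pool.Agent.Lib.MP_8f66f0_al_Dennis
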