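import Mathlib
import Pool.Agent.Lib.MP_8f66f0_al_Dennis.Deriv

/-! The logarithmic derivative of the determinant. -/

set_option autoImplicit false

namespace Pool.Agent.Lib.MP_8f66f0_al_Dennis

universe u

variable {E : Type u} [CommRing E] {ι : Type*} [Fintype ι] [DecidableEq ι]

lemma deriv_one {d : E →+ E} (hd : ∀ x y, d (x * y) = x * d y + y * d x) : d 1 = 0 := by
  have h := hd 1 1
  rw [mul_one, one_mul] at h
  exact left_eq_add.mp h

/-- the ring homomorphism `x ↦ x + ε d x` -/
def dualHom (d : E →+ E) (hd : ∀ x y, d (x * y) = x * d y + y * d x) : E →+* DN E where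
  toFun x := DN.mk x (d x)
  map_zero' := DN.ext rfl (by rw [DN.snd_mk, map_zero]; rfl)
  map_one' := DN.ext rfl (by rw [DN.snd_mk, deriv_one hd]; rfl)
  map_add' x y := DN.ext rfl (by rw [DN.snd_mk, map_add]; rfl)
  map_mul' x y := DN.ext rfl (by rw [DN.snd_mk, hd]; rw [DN.snd_mul]; rfl)

lemma dlog_det {d : E →+ E} (hd : ∀ x y, d (x * y) = x * d y + y * d x)
    {M M' : Matrix ι ι E} (h : M * M' = 1) :
    d (M.det) = M.det * Matrix.trace (M' * M.map d) := by
  set ε : DN E := DN.mk 0 1 with hε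
  have hε2 : ε ^ 2 = 0 := by
    rw [pow_two]
    apply DN.ext
    · rw [DN.fst_mul, hε, DN.fst_mk, zero_mul, DN.fst_zero]
    · rw [DN.snd_mul, hε, DN.fst_mk, zero_mul, add_zero, DN.snd_zero]
  have h1 : M.map (dualHom d hd) =
      M.map DN.inlR * (1 + ε • (M' * M.map d).map DN.inlR) := by
    have h2 : M.map DN.inlR * (M' * M.map d).map DN.inlR = (M.map d).map DN.inlR := by
      rw [← Matrix.map_mul, ← mul_assoc, h, one_mul]
    rw [mul_add, mul_one, Matrix.mul_smul, h2]
    ext i j
    apply DN.ext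
    · rw [Matrix.add_apply, DN.fst_add, Matrix.smul_apply, smul_eq_mul, DN.fst_mul]
      change M i j = M i j + 0 * _
      rw [zero_mul, add_zero]
    · rw [Matrix.add_apply, DN.snd_add, Matrix.smul_apply, smul_eq_mul, DN.snd_mul]
      change d (M i j) = 0 + (0 * _ + d (M i j) * 1)
      rw [zero_mul, zero_add, zero_add, mul_one]
  have h3 : (dualHom d hd) M.det = DN.inlR M.det * (1 + ε * DN.inlR (Matrix.trace (M' * M.map d))) := by
    rw [RingHom.map_det]
    change (M.map (dualHom d hd)).det = _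
    rw [h1, Matrix.det_mul, Matrix.det_one_add_smul, hε2, mul_zero, add_zero]
    congr 1
    · rw [RingHom.map_det]; rfl
    · rw [mul_comm ε]
      congr 2
      rw [Matrix.trace, Matrix.trace, map_sum]
      rfl
  have h4 := congrArg DN.snd h3
  rw [DN.snd_mul, DN.snd_add, DN.snd_mul] at h4
  have e1 : (dualHom d hd M.det).snd = d M.det := rfl
  have e2 : (DN.inlR M.det).fst = M.det := rfl
  have e3 : (DN.inlR M.det).snd = 0 := rfl
  have e4 : ε.fst = 0 := rfl
  have e5 : ε.snd = 1 := rfl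
  have e6 : (DN.inlR (Matrix.trace (M' * M.map d))).fst = Matrix.trace (M' * M.map d) := rfl
  rw [e1, e2, e3, e4, e5, e6, DN.snd_one] at h4
  rw [h4]
  ring

end Pool.Agent.Lib.MP_8f66f0_al_Dennis
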