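import Mathlib
import Pool.Agent.Lib.MP_8f66f0_al_Dennis.Pointwise
import Pool.Agent.Lib.MP_8f66f0_al_Dennis.Residue

/-! Vanishing of the Dennis trace against cocycles with values in a finitely generated domain of
characteristic zero. -/

set_option autoImplicit false
set_option linter.unusedSectionVars false

namespace Pool.Agent.Lib.MP_8f66f0_al_Dennis

variable {G : Type*} [Group G]

lemma eq_zero_of_forall_addHom {K : Type*} [Field K] {p : ℕ} [hp : Fact p.Prime] (hpK : (p : K) = 0)
    {x : K} (h : ∀ φ : K →+ ZMod p, φ x = 0) : x = 0 := by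
  have hchar : CharP K p := by
    obtain ⟨q, hq⟩ := CharP.exists K
    have h1 : q ∣ p := (CharP.cast_eq_zero_iff K q p).mp hpK
    rcases (Nat.dvd_prime hp.out).mp h1 with h2 | h2
    · exact absurd h2 (CharP.char_ne_one K q)
    · subst h2; exact hq
  let _ : Algebra (ZMod p) K := ZMod.algebra K p
  exact (Module.forall_dual_apply_eq_zero_iff (ZMod p) x).mp fun φ => h φ.toAddMonoidHom

open Classical in
/-- Ring valued version of the vanishing. -/
lemma ring_vanish {R : Type*} [CommRing R] [IsDomain R] [CharZero R] [Algebra.FiniteType ℤ R]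
    {ι : Type*} [Fintype ι] [DecidableEq ι]
    {S : G → Prop} (hS : ∀ g x, S x → S (g * x * g⁻¹))
    {A B : Matrix ι ι (MonoidAlgebra ℤ G)} (hAB : A * B = 1) (hBA : B * A = 1)
    {Ex : Set ℕ} (hEx : Ex.Finite)
    (hroot : ∀ p : ℕ, p.Prime → p ∉ Ex → ∀ x y : G, S x → x ^ p = y ^ p → x = y)
    (hsupp : ∀ p : ℕ, p.Prime → p ∉ Ex → ∀ i j, ∀ g ∈ (B i j).coeff.support,
      ∀ h ∈ (A j i).coeff.support, ∀ x, S x → x ^ p ≠ g * h)
    {τ : G → G → R} (hτ : ∀ g h x, S x → τ (g * h) x = τ g (h * x * h⁻¹) + τ h x) :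
    (∑ i, ∑ j, (B i j).coeff.sum fun g b => (A j i).coeff.sum fun h a =>
        if S (g * h) then ((b * a : ℤ) : R) * τ h (g * h) else 0) = 0 := by
  set D := (∑ i, ∑ j, (B i j).coeff.sum fun g b => (A j i).coeff.sum fun h a =>
        if S (g * h) then ((b * a : ℤ) : R) * τ h (g * h) else 0) with hD
  have := int_isJacobsonRing
  have hJ : IsJacobsonRing R := isJacobsonRing_of_finiteType (A := ℤ)
  have hbot : (⊥ : Ideal R).jacobson = ⊥ := by
    apply hJ.out
    exact (Ideal.isPrime_bot).isRadical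
  set s := (hEx.subset (Set.sep_subset Ex fun p => p ≠ 0)).toFinset with hs
  set N : ℕ := ∏ p ∈ s, p with hN
  have hN0 : N ≠ 0 := Finset.prod_ne_zero_iff.mpr fun p hp => by
    rw [hs, Set.Finite.mem_toFinset] at hp
    exact hp.2
  have key : (N : R) * D ∈ (⊥ : Ideal R).jacobson := by
    apply Ideal.mem_sInf.mpr
    rintro m ⟨_, hm⟩
    have hft0 : Algebra.FiniteType ℤ (R ⧸ m) :=
      Algebra.FiniteType.of_surjective (Ideal.Quotient.mkₐ ℤ m) (Ideal.Quotient.mkₐ_surjective ℤ m)
    let _ : Field (R ⧸ m) := Ideal.Quotient.field m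
    have hft : @Algebra.FiniteType ℤ (R ⧸ m) _ _ (Ring.toIntAlgebra _) := by
      convert! hft0
    obtain ⟨hf, p, hp, hp0⟩ := finite_field_of_finiteType (R ⧸ m)
    have : Fact p.Prime := ⟨hp⟩
    by_cases hpE : p ∈ Ex
    · have hps : p ∈ s := by
        rw [hs, Set.Finite.mem_toFinset]
        exact ⟨hpE, hp.ne_zero⟩
      obtain ⟨k, hk⟩ := Finset.dvd_prod_of_mem (fun q : ℕ => q) hps
      have hk' : N = p * k := hk
      have hpm : (p : R) ∈ m := by
        rw [← Ideal.Quotient.eq_zero_iff_mem, map_natCast]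
        exact hp0
      rw [hk', Nat.cast_mul, mul_assoc]
      exact m.mul_mem_right _ hpm
    · apply m.mul_mem_left
      rw [← Ideal.Quotient.eq_zero_iff_mem]
      refine eq_zero_of_forall_addHom hp0 fun φ => ?_
      set ψ : R →+ ZMod p := φ.comp (Ideal.Quotient.mk m).toAddMonoidHom with hψ
      change ψ D = 0
      have hv := vanish_mod (p := p) hS (hroot p hp hpE) (δ := fun g x => ψ (τ g x))
        (fun g h x hx => by
          rw [hτ g h x hx, map_add]) hAB hBA (hsupp p hp hpE)
      rw [← hv, hD, map_sum]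
      refine Finset.sum_congr rfl fun i _ => ?_
      rw [map_sum]
      refine Finset.sum_congr rfl fun j _ => ?_
      rw [Finsupp.sum, map_sum]
      refine Finset.sum_congr rfl fun g _ => ?_
      rw [Finsupp.sum, map_sum]
      refine Finset.sum_congr rfl fun h _ => ?_
      beta_reduce
      by_cases hs : S (g * h)
      · rw [if_pos hs, if_pos hs, ← zsmul_eq_mul, ← zsmul_eq_mul, map_zsmul]
      · rw [if_neg hs, if_neg hs, map_zero]
  rw [hbot, Ideal.mem_bot, mul_eq_zero] at key
  rcases key with h | h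
  · exact absurd (Nat.cast_eq_zero.mp h) hN0
  · exact h

end Pool.Agent.Lib.MP_8f66f0_al_Dennis
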