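import Mathlib
import Pool.Agent.Lib.MP_8f66f0_al_Dennis.ClassDefs
import Pool.Agent.Lib.MP_8f66f0_al_Dennis.DlogDet
import Pool.Agent.Lib.MP_8f66f0_al_Dennis.RingVanish

/-! Traces of representations against derivations. -/

set_option autoImplicit false
set_option linter.unusedSectionVars false

namespace Pool.Agent.Lib.MP_8f66f0_al_Dennis

universe u v

variable {E : Type v} [Field E] [CharZero E] {k : ℕ}

lemma map_deriv_mul {d : E →+ E} (hd : ∀ x y, d (x * y) = x * d y + y * d x)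
    (M N : Matrix (Fin k) (Fin k) E) : (M * N).map d = M * N.map d + M.map d * N := by
  ext i j
  rw [Matrix.map_apply, Matrix.mul_apply, map_sum, Matrix.add_apply, Matrix.mul_apply,
    Matrix.mul_apply, ← Finset.sum_add_distrib]
  refine Finset.sum_congr rfl fun l _ => ?_
  rw [hd, Matrix.map_apply, Matrix.map_apply, mul_comm (N l j)]

/-- `tr(ρ(x h⁻¹) d(ρ(h)))` -/
noncomputable def trd {G : Type u} [Group G] (ρ : G →* Matrix.GeneralLinearGroup (Fin k) E)
    (d : E →+ E) (h x : G) : E :=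
  Matrix.trace ((ρ (x * h⁻¹) : Matrix (Fin k) (Fin k) E) *
    (ρ h : Matrix (Fin k) (Fin k) E).map d)

lemma trd_cocycle {G : Type u} [Group G] (ρ : G →* Matrix.GeneralLinearGroup (Fin k) E)
    {d : E →+ E} (hd : ∀ x y, d (x * y) = x * d y + y * d x) (g h x : G) :
    trd ρ d (g * h) x = trd ρ d g (h * x * h⁻¹) + trd ρ d h x := by
  unfold trd
  have h1 : (ρ (g * h) : Matrix (Fin k) (Fin k) E) = (ρ g : Matrix (Fin k) (Fin k) E) * ρ h := by
    rw [map_mul, Units.val_mul]
  rw [h1, map_deriv_mul hd, mul_add, Matrix.trace_add, add_comm]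
  congr 1
  · rw [← mul_assoc, Matrix.trace_mul_comm, ← mul_assoc, ← Units.val_mul, ← map_mul]
    congr 4
    group
  · rw [← mul_assoc, ← Units.val_mul, ← map_mul]
    congr 4
    group

open Classical in
/-- The finitely generated case. -/
lemma det_vanish_fg {G : Type u} [Group G] [Group.FG G] (hsep : PowerSeparated G)
    {n : ℕ} {A B : Matrix (Fin n) (Fin n) (MonoidAlgebra ℤ G)} (hAB : A * B = 1) (hBA : B * A = 1)
    (ρ : G →* Matrix.GeneralLinearGroup (Fin k) E)
    {d : E →+ E} (hd : ∀ x y, d (x * y) = x * d y + y * d x) :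
    (∑ i, ∑ j, (B i j).coeff.sum fun g b => (A j i).coeff.sum fun h a =>
        if g * h ≠ 1 then ((b * a : ℤ) : E) * trd ρ d h (g * h) else 0) = 0 := by
  obtain ⟨S0, hS0⟩ := (Group.fg_def.mp ‹Group.FG G›)
  set T : Finset E := (S0 ×ˢ (Finset.univ : Finset (Fin k × Fin k))).biUnion fun x =>
    {(ρ x.1 : Matrix (Fin k) (Fin k) E) x.2.1 x.2.2,
      (ρ x.1⁻¹ : Matrix (Fin k) (Fin k) E) x.2.1 x.2.2,
      d ((ρ x.1 : Matrix (Fin k) (Fin k) E) x.2.1 x.2.2),
      d ((ρ x.1⁻¹ : Matrix (Fin k) (Fin k) E) x.2.1 x.2.2)} with hT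
  set R : Subalgebra ℤ E := Algebra.adjoin ℤ (T : Set E) with hR
  have hfg : R.FG := Subalgebra.fg_adjoin_finset T
  have hft : Algebra.FiniteType ℤ R := R.fg_iff_finiteType.mp hfg
  have hchar : CharZero R := (algebraMap R E).charZero
  -- membership
  have hmem : ∀ x : G, (∀ i j, (ρ x : Matrix (Fin k) (Fin k) E) i j ∈ R) ∧
      (∀ i j, (ρ x⁻¹ : Matrix (Fin k) (Fin k) E) i j ∈ R) ∧
      (∀ i j, d ((ρ x : Matrix (Fin k) (Fin k) E) i j) ∈ R) ∧
      (∀ i j, d ((ρ x⁻¹ : Matrix (Fin k) (Fin k) E) i j) ∈ R) := by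
    intro x
    have hx : x ∈ Subgroup.closure (S0 : Set G) := by rw [hS0]; trivial
    induction hx using Subgroup.closure_induction with
    | mem s hs =>
      have hmemT : ∀ i j, ({(ρ s : Matrix (Fin k) (Fin k) E) i j,
          (ρ s⁻¹ : Matrix (Fin k) (Fin k) E) i j,
          d ((ρ s : Matrix (Fin k) (Fin k) E) i j),
          d ((ρ s⁻¹ : Matrix (Fin k) (Fin k) E) i j)} : Finset E) ⊆ T := by
        intro i j
        rw [hT]
        intro y hy
        exact Finset.mem_biUnion.mpr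
          ⟨(s, (i, j)), Finset.mem_product.mpr ⟨hs, Finset.mem_univ _⟩, hy⟩
      refine ⟨fun i j => ?_, fun i j => ?_, fun i j => ?_, fun i j => ?_⟩
      · exact Algebra.subset_adjoin (Finset.mem_coe.mpr (hmemT i j (by simp)))
      · exact Algebra.subset_adjoin (Finset.mem_coe.mpr (hmemT i j (by simp)))
      · exact Algebra.subset_adjoin (Finset.mem_coe.mpr (hmemT i j (by simp)))
      · exact Algebra.subset_adjoin (Finset.mem_coe.mpr (hmemT i j (by simp)))
    | one =>
      have h1 : ∀ i j, (1 : Matrix (Fin k) (Fin k) E) i j ∈ R := by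
        intro i j
        rw [Matrix.one_apply]
        split_ifs
        · exact R.one_mem
        · exact R.zero_mem
      have h2 : ∀ i j, d ((1 : Matrix (Fin k) (Fin k) E) i j) ∈ R := by
        intro i j
        rw [Matrix.one_apply]
        split_ifs
        · rw [deriv_one hd]; exact R.zero_mem
        · rw [map_zero]; exact R.zero_mem
      rw [inv_one, map_one, Units.val_one]
      exact ⟨h1, h1, h2, h2⟩
    | mul x y _ _ hx hy =>
      have hm : ∀ (M N : Matrix (Fin k) (Fin k) E), (∀ i j, M i j ∈ R) → (∀ i j, N i j ∈ R) →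
          ∀ i j, (M * N) i j ∈ R := by
        intro M N hM hN i j
        rw [Matrix.mul_apply]
        exact R.sum_mem fun l _ => R.mul_mem (hM i l) (hN l j)
      have hmd : ∀ (M N : Matrix (Fin k) (Fin k) E), (∀ i j, M i j ∈ R) → (∀ i j, N i j ∈ R) →
          (∀ i j, d (M i j) ∈ R) → (∀ i j, d (N i j) ∈ R) → ∀ i j, d ((M * N) i j) ∈ R := by
        intro M N hM hN hM' hN' i j
        rw [Matrix.mul_apply, map_sum]
        refine R.sum_mem fun l _ => ?_
        rw [hd]
        exact R.add_mem (R.mul_mem (hM i l) (hN' l j)) (R.mul_mem (hN l j) (hM' i l))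
      rw [mul_inv_rev, map_mul, map_mul, Units.val_mul, Units.val_mul]
      exact ⟨hm _ _ hx.1 hy.1, hm _ _ hy.2.1 hx.2.1, hmd _ _ hx.1 hy.1 hx.2.2.1 hy.2.2.1,
        hmd _ _ hy.2.1 hx.2.1 hy.2.2.2 hx.2.2.2⟩
    | inv x _ hx =>
      rw [inv_inv]
      exact ⟨hx.2.1, hx.1, hx.2.2.2, hx.2.2.1⟩
  have htrd : ∀ h x : G, trd ρ d h x ∈ R := by
    intro h x
    unfold trd
    rw [Matrix.trace]
    refine R.sum_mem fun i _ => ?_
    rw [Matrix.diag_apply, Matrix.mul_apply]
    refine R.sum_mem fun l _ => ?_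
    rw [Matrix.map_apply]
    exact R.mul_mem ((hmem _).1 _ _) ((hmem _).2.2.1 _ _)
  -- the set of products
  set F : Finset G := (Finset.univ : Finset (Fin n × Fin n)).biUnion fun x =>
    ((B x.1 x.2).coeff.support ×ˢ (A x.2 x.1).coeff.support).image fun y => y.1 * y.2 with hF
  have hFmem : ∀ i j, ∀ g ∈ (B i j).coeff.support, ∀ h ∈ (A j i).coeff.support, g * h ∈ F := by
    intro i j g hg h hh
    rw [hF, Finset.mem_biUnion]
    exact ⟨(i, j), Finset.mem_univ _, Finset.mem_image.mpr ⟨(g, h),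
      Finset.mem_product.mpr ⟨hg, hh⟩, rfl⟩⟩
  set S : G → Prop := fun x => x ≠ 1 ∧ ∃ u ∈ F, IsConj u x with hS
  have hSconj : ∀ g x, S x → S (g * x * g⁻¹) := by
    rintro g x ⟨h1, u, hu, h2⟩
    refine ⟨fun h => h1 ?_, u, hu, h2.trans (isConj_iff.mpr ⟨g, rfl⟩)⟩
    have : x = g⁻¹ * (g * x * g⁻¹) * g := by group
    rw [this, h]; group
  obtain ⟨N, hN⟩ := hsep.roots
  set Ex : Set ℕ := Set.Iic N ∪ ⋃ x ∈ (F ×ˢ F : Finset (G × G)),
    {p : ℕ | x.2 ≠ 1 ∧ p.Prime ∧ IsConj x.1 (x.2 ^ p)} with hEx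
  have hExfin : Ex.Finite := by
    refine (Set.finite_Iic N).union (Set.Finite.biUnion (Finset.finite_toSet _) fun x _ => ?_)
    by_cases hx : x.2 = 1
    · refine Set.Finite.subset Set.finite_empty ?_
      rintro p ⟨h, _⟩
      exact absurd hx h
    · refine (hsep.conj x.1 x.2 hx).subset ?_
      rintro p ⟨_, hp, h⟩
      exact ⟨hp, h⟩
  have hvan := ring_vanish (R := R) (ι := Fin n) hSconj hAB hBA hExfin
    (fun p hp hpE x y _ h => hN p hp (not_le.mp fun hle => hpE (Or.inl hle)) x y h)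
    (by
      rintro p hp hpE i j g hg h hh x ⟨hx1, u, hu, hux⟩ hxp
      apply hpE
      right
      have hu1 : u ≠ 1 := by
        rintro rfl
        exact hx1 (isConj_one_right.mp hux)
      refine Set.mem_biUnion (x := (g * h, u)) (Finset.mem_coe.mpr (Finset.mem_product.mpr
        ⟨hFmem i j g hg h hh, hu⟩)) ⟨hu1, hp, ?_⟩
      rw [← hxp]
      exact (IsConj.pow p hux).symm)
    (τ := fun h x => (⟨trd ρ d h x, htrd h x⟩ : R))
    (fun g h x _ => Subtype.ext (trd_cocycle ρ hd g h x))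
  have h2 := congrArg (algebraMap R E) hvan
  rw [map_zero] at h2
  refine Eq.trans ?_ h2
  rw [map_sum]
  refine Finset.sum_congr rfl fun i _ => ?_
  rw [map_sum]
  refine Finset.sum_congr rfl fun j _ => ?_
  rw [Finsupp.sum, Finsupp.sum, map_sum]
  refine Finset.sum_congr rfl fun g hg => ?_
  rw [Finsupp.sum, Finsupp.sum, map_sum]
  refine Finset.sum_congr rfl fun h hh => ?_
  have hiff : g * h ≠ 1 ↔ S (g * h) :=
    ⟨fun H' => ⟨H', g * h, hFmem i j g hg h hh, IsConj.refl _⟩, fun H' => H'.1⟩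
  by_cases hs : S (g * h)
  · rw [if_pos hs, if_pos (hiff.mpr hs), map_mul, map_intCast]
    rfl
  · rw [if_neg hs, if_neg (fun H' => hs (hiff.mp H')), map_zero]

end Pool.Agent.Lib.MP_8f66f0_al_Dennis
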