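import Mathlib
import Pool.Agent.Lib.MP_8f66f0_al_Dennis.DetDefs
import Pool.Agent.Lib.MP_8f66f0_al_Dennis.DetVanish

/-! Determinants of representations. -/

set_option autoImplicit false
set_option linter.unusedSectionVars false

namespace Pool.Agent.Lib.MP_8f66f0_al_Dennis

universe u v

section rep

variable {Γ : Type u} {E : Type v} [Group Γ] [CommRing E] {n k : ℕ}

/-- The ring homomorphism from the group ring to matrices. -/
noncomputable def repHom (ρ : Γ →* Matrix.GeneralLinearGroup (Fin k) E) :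
    MonoidAlgebra ℤ Γ →ₐ[ℤ] Matrix (Fin k) (Fin k) E :=
  MonoidAlgebra.lift ℤ (Matrix (Fin k) (Fin k) E) Γ ((Units.coeHom _).comp ρ)

lemma repHom_apply (ρ : Γ →* Matrix.GeneralLinearGroup (Fin k) E) (x : MonoidAlgebra ℤ Γ)
    (a b : Fin k) : repHom ρ x a b =
      x.coeff.sum fun g m => (m : E) * (ρ g : Matrix (Fin k) (Fin k) E) a b := by
  rw [repHom, MonoidAlgebra.lift_apply, Finsupp.sum, Matrix.sum_apply, Finsupp.sum]
  refine Finset.sum_congr rfl fun g _ => ?_
  rw [Matrix.smul_apply, zsmul_eq_mul]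
  rfl

lemma repMatrix_apply (ρ : Γ →* Matrix.GeneralLinearGroup (Fin k) E)
    (A : Matrix (Fin n) (Fin n) (MonoidAlgebra ℤ Γ)) (x y : Fin n × Fin k) :
    repMatrix ρ A x y = repHom ρ (A x.1 y.1) x.2 y.2 := by
  rw [repHom_apply]; rfl

lemma repMatrix_mul (ρ : Γ →* Matrix.GeneralLinearGroup (Fin k) E)
    (A B : Matrix (Fin n) (Fin n) (MonoidAlgebra ℤ Γ)) :
    repMatrix ρ (A * B) = repMatrix ρ A * repMatrix ρ B := by
  ext x y
  rw [repMatrix_apply, Matrix.mul_apply, Matrix.mul_apply, map_sum, Matrix.sum_apply,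
    Fintype.sum_prod_type]
  refine Finset.sum_congr rfl fun l _ => ?_
  rw [map_mul, Matrix.mul_apply]
  refine Finset.sum_congr rfl fun c _ => ?_
  rw [repMatrix_apply, repMatrix_apply]

lemma repMatrix_one (ρ : Γ →* Matrix.GeneralLinearGroup (Fin k) E) :
    repMatrix ρ (1 : Matrix (Fin n) (Fin n) (MonoidAlgebra ℤ Γ)) = 1 := by
  ext x y
  rw [repMatrix_apply, Matrix.one_apply, Matrix.one_apply]
  by_cases h : x.1 = y.1
  · rw [if_pos h, map_one, Matrix.one_apply]
    by_cases h' : x.2 = y.2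
    · rw [if_pos h', if_pos (Prod.ext h h')]
    · rw [if_neg h', if_neg (fun e => h' (congrArg Prod.snd e))]
  · rw [if_neg h, map_zero, if_neg (fun e => h (congrArg Prod.fst e))]
    rfl

end rep

section field

variable {Γ : Type u} {E : Type v} [Group Γ] [Field E] {n k : ℕ}

lemma map_intCast_mul {d : E →+ E} (a : ℤ) (x : E) : d ((a : E) * x) = (a : E) * d x := by
  rw [← zsmul_eq_mul, map_zsmul, zsmul_eq_mul]

lemma trace_repMatrix (ρ : Γ →* Matrix.GeneralLinearGroup (Fin k) E) {d : E →+ E}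
    (A B : Matrix (Fin n) (Fin n) (MonoidAlgebra ℤ Γ)) :
    Matrix.trace (repMatrix ρ B * (repMatrix ρ A).map d) =
      ∑ i, ∑ j, (B i j).coeff.sum fun g b => (A j i).coeff.sum fun h a =>
        ((b * a : ℤ) : E) * trd ρ d h (g * h) := by
  rw [Matrix.trace, Fintype.sum_prod_type]
  refine Finset.sum_congr rfl fun i _ => ?_
  have h1 : ∀ a : Fin k, Matrix.diag (repMatrix ρ B * (repMatrix ρ A).map d) (i, a) =
      ∑ j, ∑ c, repHom ρ (B i j) a c * d (repHom ρ (A j i) c a) := by
    intro a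
    rw [Matrix.diag_apply, Matrix.mul_apply, Fintype.sum_prod_type]
    refine Finset.sum_congr rfl fun j _ => Finset.sum_congr rfl fun c _ => ?_
    rw [Matrix.map_apply, repMatrix_apply, repMatrix_apply]
  rw [Finset.sum_congr rfl fun a _ => h1 a, Finset.sum_comm]
  refine Finset.sum_congr rfl fun j _ => ?_
  have h2 : ∀ a c : Fin k, repHom ρ (B i j) a c * d (repHom ρ (A j i) c a) =
      ∑ g ∈ (B i j).coeff.support, ∑ h ∈ (A j i).coeff.support,
        (((B i j).coeff g * (A j i).coeff h : ℤ) : E) *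
          ((ρ g : Matrix (Fin k) (Fin k) E) a c * d ((ρ h : Matrix (Fin k) (Fin k) E) c a)) := by
    intro a c
    rw [repHom_apply, repHom_apply, Finsupp.sum, Finsupp.sum, map_sum, Finset.sum_mul_sum]
    refine Finset.sum_congr rfl fun g _ => Finset.sum_congr rfl fun h _ => ?_
    rw [map_intCast_mul]
    push_cast
    ring
  rw [Finset.sum_congr rfl fun a _ => Finset.sum_congr rfl fun c _ => h2 a c]
  have h3 : ∀ g h : Γ, trd ρ d h (g * h) = ∑ a, ∑ c, (ρ g : Matrix (Fin k) (Fin k) E) a c *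
      d ((ρ h : Matrix (Fin k) (Fin k) E) c a) := by
    intro g h
    unfold trd
    rw [mul_inv_cancel_right, Matrix.trace]
    refine Finset.sum_congr rfl fun a _ => ?_
    rw [Matrix.diag_apply, Matrix.mul_apply]
    rfl
  rw [Finsupp.sum]
  have h4 : ∀ g ∈ (B i j).coeff.support, ((A j i).coeff.sum fun h a =>
      (((B i j).coeff g * a : ℤ) : E) * trd ρ d h (g * h)) =
      ∑ h ∈ (A j i).coeff.support, ∑ a, ∑ c, (((B i j).coeff g * (A j i).coeff h : ℤ) : E) *
          ((ρ g : Matrix (Fin k) (Fin k) E) a c * d ((ρ h : Matrix (Fin k) (Fin k) E) c a)) := by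
    intro g _
    rw [Finsupp.sum]
    refine Finset.sum_congr rfl fun h _ => ?_
    rw [h3, Finset.mul_sum]
    refine Finset.sum_congr rfl fun a _ => ?_
    rw [Finset.mul_sum]
  rw [Finset.sum_congr rfl h4]
  -- interchange the sums
  rw [Finset.sum_congr rfl fun a _ => Finset.sum_comm]
  rw [Finset.sum_comm]
  refine Finset.sum_congr rfl fun g _ => ?_
  rw [Finset.sum_congr rfl fun a _ => Finset.sum_comm]
  rw [Finset.sum_comm]

end field

end Pool.Agent.Lib.MP_8f66f0_al_Dennis
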