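import Mathlib
import Pool.Agent.Lib.MP_8f66f0_al_Dennis.Descent
import Pool.Agent.Lib.MP_8f66f0_al_Dennis.Dets

/-! Determinants of representations: the main theorem. -/

set_option autoImplicit false
set_option linter.unusedSectionVars false

namespace Pool.Agent.Lib.MP_8f66f0_al_Dennis

universe u v

variable {Γ : Type u} [Group Γ] {n : ℕ}

lemma exists_descent (A B : Matrix (Fin n) (Fin n) (MonoidAlgebra ℤ Γ)) (hAB : A * B = 1)
    (hBA : B * A = 1) :
    ∃ H : Subgroup Γ, H.FG ∧ ∃ A' B' : Matrix (Fin n) (Fin n) (MonoidAlgebra ℤ H),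
      A' * B' = 1 ∧ B' * A' = 1 ∧
      (∀ i j, MonoidAlgebra.mapDomainRingHom ℤ H.subtype (A' i j) = A i j) ∧
      (∀ i j, MonoidAlgebra.mapDomainRingHom ℤ H.subtype (B' i j) = B i j) := by
  classical
  set W : Finset Γ := (Finset.univ : Finset (Fin n × Fin n)).biUnion fun x =>
    (A x.1 x.2).coeff.support ∪ (B x.1 x.2).coeff.support with hW
  set H : Subgroup Γ := Subgroup.closure (W : Set Γ) with hH
  have hHfg : H.FG := ⟨W, rfl⟩
  have hA : ∀ i j, ∀ g ∈ (A i j).coeff.support, g ∈ H := by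
    intro i j g hg
    apply Subgroup.subset_closure
    rw [hW]
    exact Finset.mem_coe.mpr (Finset.mem_biUnion.mpr ⟨(i, j), Finset.mem_univ _,
      Finset.mem_union_left _ hg⟩)
  have hB : ∀ i j, ∀ g ∈ (B i j).coeff.support, g ∈ H := by
    intro i j g hg
    apply Subgroup.subset_closure
    rw [hW]
    exact Finset.mem_coe.mpr (Finset.mem_biUnion.mpr ⟨(i, j), Finset.mem_univ _,
      Finset.mem_union_right _ hg⟩)
  choose A' hA' using fun i j => exists_res H (A i j) (hA i j)
  choose B' hB' using fun i j => exists_res H (B i j) (hB i j)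
  set φ := MonoidAlgebra.mapDomainRingHom ℤ H.subtype with hφ
  have hφinj : Function.Injective φ := MonoidAlgebra.mapDomain_injective Subtype.val_injective
  have hmul : ∀ X Y : Matrix (Fin n) (Fin n) (MonoidAlgebra ℤ H),
      (X * Y).map φ = X.map φ * Y.map φ := fun X Y => Matrix.map_mul
  have hone : (1 : Matrix (Fin n) (Fin n) (MonoidAlgebra ℤ H)).map φ = 1 :=
    Matrix.map_one _ (map_zero _) (map_one _)
  have hAm : (Matrix.of A').map φ = A := by ext1 i j; exact hA' i j
  have hBm : (Matrix.of B').map φ = B := by ext1 i j; exact hB' i j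
  have hABH : (Matrix.of A') * (Matrix.of B') = 1 := by
    apply Matrix.map_injective hφinj
    change ((Matrix.of A') * (Matrix.of B')).map φ = (1 : Matrix _ _ _).map φ
    rw [hmul, hAm, hBm, hone, hAB]
  have hBAH : (Matrix.of B') * (Matrix.of A') = 1 := by
    apply Matrix.map_injective hφinj
    change ((Matrix.of B') * (Matrix.of A')).map φ = (1 : Matrix _ _ _).map φ
    rw [hmul, hAm, hBm, hone, hBA]
  exact ⟨H, hHfg, Matrix.of A', Matrix.of B', hABH, hBAH, hA', hB'⟩

open Classical in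
lemma det_vanish (hsep : ∀ H : Subgroup Γ, H.FG → PowerSeparated H)
    {A B : Matrix (Fin n) (Fin n) (MonoidAlgebra ℤ Γ)} (hAB : A * B = 1) (hBA : B * A = 1)
    {E : Type v} [Field E] [CharZero E] {k : ℕ}
    (ρ : Γ →* Matrix.GeneralLinearGroup (Fin k) E)
    {d : E →+ E} (hd : ∀ x y, d (x * y) = x * d y + y * d x) :
    (∑ i, ∑ j, (B i j).coeff.sum fun g b => (A j i).coeff.sum fun h a =>
        if g * h ≠ 1 then ((b * a : ℤ) : E) * trd ρ d h (g * h) else 0) = 0 := by
  obtain ⟨H, hH, A', B', hAB', hBA', hA', hB'⟩ := exists_descent A B hAB hBA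
  have : Group.FG H := (Group.fg_iff_subgroup_fg H).mpr hH
  have key := det_vanish_fg (hsep H hH) hAB' hBA' (ρ.comp H.subtype) hd
  refine Eq.trans ?_ key
  refine Finset.sum_congr rfl fun i _ => Finset.sum_congr rfl fun j _ => ?_
  rw [sum_res (hB' i j)]
  refine Finset.sum_congr rfl fun g hg => ?_
  beta_reduce
  rw [sum_res (hA' j i)]
  refine Finset.sum_congr rfl fun h hh => ?_
  have hiff : (g : Γ) * (h : Γ) ≠ 1 ↔ g * h ≠ 1 := by
    rw [not_iff_not, ← Subgroup.coe_mul, ← Subgroup.coe_one H, Subtype.ext_iff]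
  beta_reduce
  by_cases hs : g * h ≠ 1
  · rw [if_pos hs, if_pos (hiff.mpr hs)]
    rfl
  · rw [if_neg hs, if_neg (fun H' => hs (hiff.mp H'))]

/-- Additive expressions in homomorphisms which are values at an element. -/
def IsVal (Γ : Type u) [Group Γ] (F : ∀ (V : Type v) [AddCommGroup V], (Γ → V) → V) : Prop :=
  ∃ γ : Γ, ∀ (V : Type v) [AddCommGroup V] (φ : Γ → V), (∀ g h, φ (g * h) = φ g + φ h) →
    φ γ = F V φ

lemma hom_one {V : Type v} [AddCommGroup V] {φ : Γ → V} (hφ : ∀ g h, φ (g * h) = φ g + φ h) :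
    φ 1 = 0 := by
  have := hφ 1 1
  rw [mul_one] at this
  exact left_eq_add.mp this

lemma IsVal.sum {ι : Type*} (s : Finset ι) {F : ι → ∀ (V : Type v) [AddCommGroup V], (Γ → V) → V}
    (h : ∀ i ∈ s, IsVal Γ (F i)) : IsVal Γ (fun V _ φ => ∑ i ∈ s, F i V φ) := by
  classical
  induction s using Finset.induction_on with
  | empty => exact ⟨1, fun V _ φ hφ => by
      beta_reduce
      rw [Finset.sum_empty, hom_one hφ]⟩
  | insert a s ha ih =>
    obtain ⟨γ1, h1⟩ := ih fun i hi => h i (Finset.mem_insert_of_mem hi)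
    obtain ⟨γ2, h2⟩ := h a (Finset.mem_insert_self a s)
    exact ⟨γ2 * γ1, fun V _ φ hφ => by
      beta_reduce
      rw [hφ, h1 V φ hφ, h2 V φ hφ, Finset.sum_insert ha]⟩

lemma hom_zpow {V : Type v} [AddCommGroup V] {φ : Γ → V} (hφ : ∀ g h, φ (g * h) = φ g + φ h)
    (h : Γ) (m : ℤ) : φ (h ^ m) = m • φ h := by
  set ψ : Γ →* Multiplicative V :=
    { toFun := fun g => Multiplicative.ofAdd (φ g)
      map_one' := by rw [hom_one hφ]; rfl
      map_mul' := fun g h => by rw [hφ]; rfl } with hψ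
  have h1 := map_zpow ψ h m
  exact h1

open Classical in
lemma exists_element (A B : Matrix (Fin n) (Fin n) (MonoidAlgebra ℤ Γ)) :
    IsVal.{u, v} Γ (fun V _ φ => ∑ i, ∑ j, ∑ g ∈ (B i j).coeff.support,
      ∑ h ∈ (A j i).coeff.support,
        if g * h = 1 then ((B i j).coeff g * (A j i).coeff h) • φ h else 0) := by
  refine IsVal.sum _ fun i _ => IsVal.sum _ fun j _ => IsVal.sum _ fun g _ => IsVal.sum _
    fun h _ => ?_
  by_cases hgh : g * h = 1
  · exact ⟨h ^ ((B i j).coeff g * (A j i).coeff h), fun V _ φ hφ => by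
      beta_reduce
      rw [if_pos hgh, hom_zpow hφ]⟩
  · exact ⟨1, fun _ _ φ hφ => by
      beta_reduce
      rw [if_neg hgh, hom_one hφ]⟩

open Classical in
/-- For an invertible matrix over the integral group ring, the determinants of all
representations are, up to factors algebraic over the rationals, those of a group element. -/
theorem det_algebraic (hsep : ∀ H : Subgroup Γ, H.FG → PowerSeparated H)
    {A B : Matrix (Fin n) (Fin n) (MonoidAlgebra ℤ Γ)} (hAB : A * B = 1) (hBA : B * A = 1) :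
    ∃ γ : Γ, ∀ (E : Type v) [Field E] [CharZero E] (k : ℕ)
      (ρ : Γ →* Matrix.GeneralLinearGroup (Fin k) E),
      IsAlgebraic ℚ ((repMatrix ρ A).det / (ρ γ : Matrix (Fin k) (Fin k) E).det) := by
  obtain ⟨γ, hγ⟩ := exists_element.{u, v} A B
  refine ⟨γ, fun E _ _ k ρ => ?_⟩
  by_contra htr
  obtain ⟨d, hd, hdz⟩ := exists_derivation (E := E) htr
  apply hdz
  set M := repMatrix ρ A with hM
  set z := M.det / (ρ γ : Matrix (Fin k) (Fin k) E).det with hz
  have hdet0 : (ρ γ : Matrix (Fin k) (Fin k) E).det ≠ 0 := by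
    have : IsUnit (ρ γ : Matrix (Fin k) (Fin k) E).det :=
      (Matrix.isUnit_iff_isUnit_det _).mp (ρ γ).isUnit
    exact this.ne_zero
  have hMM : M * repMatrix ρ B = 1 := by
    rw [hM, ← repMatrix_mul, hAB, repMatrix_one]
  -- derivative of det M
  have h1 := dlog_det hd hMM
  rw [hM, trace_repMatrix, ← hM] at h1
  -- derivative of det ρ γ
  have h2 : d (ρ γ : Matrix (Fin k) (Fin k) E).det =
      (ρ γ : Matrix (Fin k) (Fin k) E).det * trd ρ d γ 1 := by
    have h3 : (ρ γ : Matrix (Fin k) (Fin k) E) * (ρ γ⁻¹ : Matrix (Fin k) (Fin k) E) = 1 := by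
      rw [← Units.val_mul, ← map_mul, mul_inv_cancel, map_one, Units.val_one]
    rw [dlog_det hd h3]
    unfold trd
    rw [one_mul]
  -- the trace
  have h3 : (∑ i, ∑ j, (B i j).coeff.sum fun g b => (A j i).coeff.sum fun h a =>
        ((b * a : ℤ) : E) * trd ρ d h (g * h)) = trd ρ d γ 1 := by
    have hφ : ∀ g h, trd ρ d (g * h) 1 = trd ρ d g 1 + trd ρ d h 1 := by
      intro g h
      rw [trd_cocycle ρ hd, mul_one, mul_inv_cancel]
    have h5 := hγ E (fun h => trd ρ d h 1) hφ
    beta_reduce at h5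
    rw [h5]
    have h4 := det_vanish hsep hAB hBA ρ hd
    refine Eq.trans ?_ (add_eq_left.mpr h4)
    rw [← Finset.sum_add_distrib]
    refine Finset.sum_congr rfl fun i _ => ?_
    rw [← Finset.sum_add_distrib]
    refine Finset.sum_congr rfl fun j _ => ?_
    rw [Finsupp.sum, Finsupp.sum, ← Finset.sum_add_distrib]
    refine Finset.sum_congr rfl fun g _ => ?_
    rw [Finsupp.sum, Finsupp.sum, ← Finset.sum_add_distrib]
    refine Finset.sum_congr rfl fun h _ => ?_
    beta_reduce
    by_cases hgh : g * h = 1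
    · rw [if_pos hgh, if_neg (not_not.mpr hgh), add_zero, zsmul_eq_mul, hgh]
    · rw [if_neg hgh, if_pos hgh, zero_add]
  rw [h3] at h1
  -- conclusion
  have h5 : M.det = z * (ρ γ : Matrix (Fin k) (Fin k) E).det := by
    rw [hz, div_mul_cancel₀ _ hdet0]
  have h6 : d M.det = z * d (ρ γ : Matrix (Fin k) (Fin k) E).det +
      (ρ γ : Matrix (Fin k) (Fin k) E).det * d z := by
    rw [h5, hd]
  rw [h1, h2, h5] at h6
  have h7 : (ρ γ : Matrix (Fin k) (Fin k) E).det * d z = 0 := by linear_combination -h6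
  exact (mul_eq_zero.mp h7).resolve_left hdet0

end Pool.Agent.Lib.MP_8f66f0_al_Dennis
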