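import Mathlib
import Pool.Agent.Lib.MP_8f66f0_al_Dennis.Dets

/-! Exact determinant formulas for representations which specialize to the trivial one. -/

set_option autoImplicit false
set_option linter.unusedSectionVars false

namespace Pool.Agent.Lib.MP_8f66f0_al_Dennis

universe u v w

variable {Γ : Type u} [Group Γ] {n : ℕ}

lemma repMatrix_map {R : Type v} {K : Type w} [CommRing R] [CommRing K] (s : R →+* K) {k : ℕ}
    (ρ : Γ →* Matrix.GeneralLinearGroup (Fin k) R)
    (A : Matrix (Fin n) (Fin n) (MonoidAlgebra ℤ Γ)) :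
    (repMatrix ρ A).map s = repMatrix ((Matrix.GeneralLinearGroup.map s).comp ρ) A := by
  ext x y
  rw [Matrix.map_apply]
  unfold repMatrix
  rw [Matrix.of_apply, Matrix.of_apply, Finsupp.sum, map_sum, Finsupp.sum]
  refine Finset.sum_congr rfl fun g _ => ?_
  rw [map_mul, map_intCast]
  rfl

lemma isUnit_det_repMatrix {R : Type v} [CommRing R] {k : ℕ}
    (ρ : Γ →* Matrix.GeneralLinearGroup (Fin k) R)
    {A B : Matrix (Fin n) (Fin n) (MonoidAlgebra ℤ Γ)} (hAB : A * B = 1) :
    IsUnit (repMatrix ρ A).det := by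
  have h : repMatrix ρ A * repMatrix ρ B = 1 := by rw [← repMatrix_mul, hAB, repMatrix_one]
  have h2 := congrArg Matrix.det h
  rw [Matrix.det_mul, Matrix.det_one] at h2
  exact IsUnit.of_mul_eq_one _ h2

/-- In the trivial representation the determinant is `1` or `-1`. -/
lemma det_trivial {K : Type w} [CommRing K] {k : ℕ}
    {A B : Matrix (Fin n) (Fin n) (MonoidAlgebra ℤ Γ)} (hAB : A * B = 1) :
    (repMatrix (1 : Γ →* Matrix.GeneralLinearGroup (Fin k) K) A).det = 1 ∨
    (repMatrix (1 : Γ →* Matrix.GeneralLinearGroup (Fin k) K) A).det = -1 := by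
  have h1 : repMatrix (1 : Γ →* Matrix.GeneralLinearGroup (Fin k) K) A =
      (repMatrix (1 : Γ →* Matrix.GeneralLinearGroup (Fin k) ℤ) A).map (Int.castRingHom K) := by
    rw [repMatrix_map]
    congr 1
    ext g : 1
    change 1 = Matrix.GeneralLinearGroup.map (Int.castRingHom K) 1
    rw [map_one]
  have h2 : (repMatrix (1 : Γ →* Matrix.GeneralLinearGroup (Fin k) K) A).det =
      (Int.castRingHom K) (repMatrix (1 : Γ →* Matrix.GeneralLinearGroup (Fin k) ℤ) A).det := by
    rw [h1, RingHom.map_det]; rfl
  have h3 := isUnit_det_repMatrix (1 : Γ →* Matrix.GeneralLinearGroup (Fin k) ℤ) hAB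
  rcases Int.isUnit_iff.mp h3 with h | h
  · left; rw [h2, h, map_one]
  · right; rw [h2, h, map_neg, map_one]

/-- An element of a domain of characteristic zero which is algebraic over the rationals and
specializes to `e = 1` or `e = -1` is equal to `e`. -/
lemma eq_of_specialize {R : Type v} [CommRing R] [IsDomain R] [CharZero R] {K : Type w} [Field K]
    [CharZero K] (s : R →+* K) {u : R} (e : ℤ) (hu : s u = e)
    (halg : IsAlgebraic ℚ (algebraMap R (FractionRing R) u)) : u = e := by
  have hchar : CharZero (FractionRing R) :=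
    charZero_of_injective_algebraMap (IsFractionRing.injective R (FractionRing R))
  set z := algebraMap R (FractionRing R) u with hz
  have hint : IsIntegral ℚ z := halg.isIntegral
  set f := minpoly ℚ z with hf
  have hirr : Irreducible f := minpoly.irreducible hint
  -- clear denominators
  obtain ⟨b, hb, hb2⟩ := IsLocalization.integerNormalization_spec (nonZeroDivisors ℤ) f
  set g := IsLocalization.integerNormalization (nonZeroDivisors ℤ) f with hg
  have hb0 : b ≠ 0 := nonZeroDivisors.ne_zero hb
  have hgz : Polynomial.eval₂ (Int.castRingHom (FractionRing R)) z g = 0 := by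
    have h1 : Polynomial.eval₂ (Int.castRingHom (FractionRing R)) z g =
        Polynomial.aeval z (g.map (algebraMap ℤ ℚ)) := by
      rw [Polynomial.aeval_def, Polynomial.eval₂_map]
      congr 1
      ext; simp
    rw [h1, hb2, zsmul_eq_mul, map_mul, minpoly.aeval, mul_zero]
  have hgu : Polynomial.eval₂ (Int.castRingHom R) u g = 0 := by
    apply IsFractionRing.injective R (FractionRing R)
    rw [map_zero, Polynomial.hom_eval₂]
    have : (algebraMap R (FractionRing R)).comp (Int.castRingHom R) =
        Int.castRingHom (FractionRing R) := RingHom.ext_int _ _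
    rw [this]; exact hgz
  have hgs : Polynomial.eval₂ (Int.castRingHom K) (e : K) g = 0 := by
    have h1 := congrArg s hgu
    rw [map_zero, Polynomial.hom_eval₂, hu] at h1
    have : s.comp (Int.castRingHom R) = Int.castRingHom K := RingHom.ext_int _ _
    rwa [this] at h1
  have hge : Polynomial.eval₂ (Int.castRingHom K) ((e : ℤ) : K) g =
      (Int.castRingHom K) (Polynomial.eval e g) := by
    rw [Polynomial.eval₂_at_intCast]
    rfl
  have hge0 : Polynomial.eval e g = 0 := by
    rw [hge] at hgs
    have : ((Polynomial.eval e g : ℤ) : K) = 0 := hgs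
    exact_mod_cast this
  have hfe : Polynomial.eval (e : ℚ) f = 0 := by
    have h1 : Polynomial.eval (e : ℚ) (g.map (algebraMap ℤ ℚ)) = 0 := by
      rw [Polynomial.eval_map]
      have h2 : Polynomial.eval₂ (algebraMap ℤ ℚ) (e : ℚ) g = ((Polynomial.eval e g : ℤ) : ℚ) := by
        simp
      rw [h2, hge0, Int.cast_zero]
    rw [hb2, Polynomial.eval_smul] at h1
    have h3 : (b : ℚ) * Polynomial.eval (e : ℚ) f = 0 := by
      rw [← h1]
      simp [Algebra.smul_def]
    exact (mul_eq_zero.mp h3).resolve_left (by exact_mod_cast hb0)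
  have hdvd : (Polynomial.X - Polynomial.C (e : ℚ)) ∣ f := Polynomial.dvd_iff_isRoot.mpr hfe
  have hassoc : Associated (Polynomial.X - Polynomial.C (e : ℚ)) f :=
    (Polynomial.irreducible_X_sub_C _).associated_of_dvd hirr hdvd
  have hz0 : Polynomial.aeval z (Polynomial.X - Polynomial.C (e : ℚ)) = 0 := by
    obtain ⟨c, hc⟩ := hassoc.symm
    rw [← hc, map_mul, minpoly.aeval, zero_mul]
  have hze : z = (e : FractionRing R) := by
    rw [map_sub, Polynomial.aeval_X, Polynomial.aeval_C, sub_eq_zero] at hz0
    rw [hz0]; simp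
  apply IsFractionRing.injective R (FractionRing R)
  rw [← hz, hze, map_intCast]

theorem det_exact {A B : Matrix (Fin n) (Fin n) (MonoidAlgebra ℤ Γ)} (hAB : A * B = 1) {γ : Γ}
    (hγ : ∀ (E : Type v) [Field E] [CharZero E] (k : ℕ)
      (ρ : Γ →* Matrix.GeneralLinearGroup (Fin k) E),
      IsAlgebraic ℚ ((repMatrix ρ A).det / (ρ γ : Matrix (Fin k) (Fin k) E).det))
    (R : Type v) [CommRing R] [IsDomain R] [CharZero R] (K : Type w) [Field K] [CharZero K]
    (s : R →+* K) (k : ℕ) (ρ : Γ →* Matrix.GeneralLinearGroup (Fin k) R)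
    (hs : ∀ g, Matrix.GeneralLinearGroup.map s (ρ g) = 1) :
    (repMatrix ρ A).det = (ρ γ : Matrix (Fin k) (Fin k) R).det ∨
    (repMatrix ρ A).det = -(ρ γ : Matrix (Fin k) (Fin k) R).det := by
  have hchar : CharZero (FractionRing R) :=
    charZero_of_injective_algebraMap (IsFractionRing.injective R (FractionRing R))
  set ι := algebraMap R (FractionRing R) with hι
  set δ : R := (ρ γ : Matrix (Fin k) (Fin k) R).det with hδ
  set δ' : R := (ρ γ⁻¹ : Matrix (Fin k) (Fin k) R).det with hδ'
  have hδδ' : δ * δ' = 1 := by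
    rw [hδ, hδ', ← Matrix.det_mul, ← Units.val_mul, ← map_mul, mul_inv_cancel, map_one,
      Units.val_one, Matrix.det_one]
  set u : R := (repMatrix ρ A).det * δ' with hu
  have halg := hγ (FractionRing R) k ((Matrix.GeneralLinearGroup.map ι).comp ρ)
  have h1 : (repMatrix ((Matrix.GeneralLinearGroup.map ι).comp ρ) A).det =
      ι (repMatrix ρ A).det := by
    rw [← repMatrix_map, RingHom.map_det]; rfl
  have h2 : ((((Matrix.GeneralLinearGroup.map ι).comp ρ) γ : Matrix.GeneralLinearGroup (Fin k)
      (FractionRing R)) : Matrix (Fin k) (Fin k) (FractionRing R)).det = ι δ := by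
    rw [hδ, RingHom.map_det]; rfl
  rw [h1, h2] at halg
  have h3 : ι (repMatrix ρ A).det / ι δ = ι u := by
    have h0 : ι δ * ι δ' = 1 := by rw [← map_mul, hδδ', map_one]
    have hne : ι δ ≠ 0 := left_ne_zero_of_mul_eq_one h0
    rw [hu, map_mul, div_eq_iff hne, mul_assoc, mul_comm (ι δ'), h0, mul_one]
  rw [h3] at halg
  -- specialization
  have hcomp : (Matrix.GeneralLinearGroup.map s).comp ρ =
      (1 : Γ →* Matrix.GeneralLinearGroup (Fin k) K) := by
    ext g : 1
    exact hs g
  have h4 : s (repMatrix ρ A).det =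
      (repMatrix (1 : Γ →* Matrix.GeneralLinearGroup (Fin k) K) A).det := by
    rw [← hcomp, ← repMatrix_map, RingHom.map_det]; rfl
  have h5 : s δ' = 1 := by
    have h5a : ((Matrix.GeneralLinearGroup.map s (ρ γ⁻¹) : Matrix.GeneralLinearGroup (Fin k) K) :
        Matrix (Fin k) (Fin k) K).det = 1 := by
      rw [hs γ⁻¹, Units.val_one, Matrix.det_one]
    rw [hδ', RingHom.map_det, ← h5a]
    rfl
  have h6 : (repMatrix ρ A).det = u * δ := by
    rw [hu, mul_assoc, mul_comm δ', hδδ', mul_one]
  rcases det_trivial (K := K) (k := k) hAB with h | h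
  · left
    have h7 : s u = ((1 : ℤ) : K) := by rw [hu, map_mul, h4, h5, h]; simp
    have h8 := eq_of_specialize s 1 h7 halg
    rw [h6, h8]; simp
  · right
    have h7 : s u = ((-1 : ℤ) : K) := by rw [hu, map_mul, h4, h5, h]; simp
    have h8 := eq_of_specialize s (-1) h7 halg
    rw [h6, h8]; simp

end Pool.Agent.Lib.MP_8f66f0_al_Dennis
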